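import Mathlib

set_option autoImplicit false

/-!
# Tsirelson's space (Figiel-Johnson form) and its basic properties
-/

namespace Pool.Agent.Helper72.Tsirelson

open Finset Filter Topology
open scoped ENNReal

noncomputable section

/-- The norming set of the Figiel-Johnson form of Tsirelson's space. -/
inductive TK : (ℕ →₀ ℝ) → Prop
  | unit (i : ℕ) (s : ℝ) (hs : |s| ≤ 1) : TK (Finsupp.single i s)
  | node (n : ℕ) (a : ℕ → ℕ) (f : ℕ → (ℕ →₀ ℝ)) (ha : Monotone a) (h0 : n ≤ a 0)
      (hf : ∀ i, TK (f i)) (hsupp : ∀ i j, f i j ≠ 0 → a i ≤ j ∧ j < a (i+1)) :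
      TK ((1/2 : ℝ) • ∑ i ∈ range n, f i)

theorem TK.neg {f : ℕ →₀ ℝ} (h : TK f) : TK (-f) := by
  induction h with
  | unit i s hs =>
    rw [← Finsupp.single_neg]
    exact TK.unit i (-s) (by simpa using hs)
  | node n a f ha h0 hf hsupp ih =>
    have : (-((1/2 : ℝ) • ∑ i ∈ range n, f i)) = (1/2 : ℝ) • ∑ i ∈ range n, (-(f i)) := by
      rw [Finset.sum_neg_distrib, smul_neg]
    rw [this]
    refine TK.node n a (fun i => - f i) ha h0 ih ?_
    intro i j hij
    apply hsupp i j
    intro h
    apply hij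
    simp [h]

/-- Restriction of a finitely supported function to a set. -/
def res (A : Set ℕ) : (ℕ →₀ ℝ) →ₗ[ℝ] (ℕ →₀ ℝ) := by
  classical
  exact
  { toFun := fun f => f.filter (· ∈ A)
    map_add' := fun f g => Finsupp.filter_add
    map_smul' := fun c f => by
      ext j
      simp only [Finsupp.filter_apply, Finsupp.smul_apply, RingHom.id_apply, smul_eq_mul]
      split_ifs <;> simp }

theorem res_apply_mem {A : Set ℕ} {f : ℕ →₀ ℝ} {j : ℕ} (h : j ∈ A) : res A f j = f j := by
  classical
  simp [res, h]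

theorem res_apply_not_mem {A : Set ℕ} {f : ℕ →₀ ℝ} {j : ℕ} (h : j ∉ A) : res A f j = 0 := by
  classical
  simp [res, h]

theorem res_apply_ne {A : Set ℕ} {f : ℕ →₀ ℝ} {j : ℕ} (h : res A f j ≠ 0) : j ∈ A ∧ f j ≠ 0 := by
  by_cases hj : j ∈ A
  · rw [res_apply_mem hj] at h
    exact ⟨hj, h⟩
  · exact absurd (res_apply_not_mem hj) h

theorem res_single_mem {A : Set ℕ} {j : ℕ} {s : ℝ} (h : j ∈ A) :
    res A (Finsupp.single j s) = Finsupp.single j s := by
  classical
  ext i
  by_cases hi : i ∈ A
  · rw [res_apply_mem hi]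
  · rw [res_apply_not_mem hi]
    have : i ≠ j := fun h' => hi (h' ▸ h)
    simp [this.symm]

theorem res_single_not_mem {A : Set ℕ} {j : ℕ} {s : ℝ} (h : j ∉ A) :
    res A (Finsupp.single j s) = 0 := by
  classical
  ext i
  by_cases hi : i ∈ A
  · rw [res_apply_mem hi]
    have : i ≠ j := fun h' => h (h' ▸ hi)
    simp [this.symm]
  · rw [res_apply_not_mem hi]
    simp

theorem res_res (A B : Set ℕ) (f : ℕ →₀ ℝ) : res A (res B f) = res (A ∩ B) f := by
  ext j
  by_cases hA : j ∈ A
  · by_cases hB : j ∈ B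
    · rw [res_apply_mem hA, res_apply_mem hB, res_apply_mem (⟨hA, hB⟩ : j ∈ A ∩ B)]
    · rw [res_apply_mem hA, res_apply_not_mem hB, res_apply_not_mem (fun h => hB h.2)]
  · rw [res_apply_not_mem hA, res_apply_not_mem (fun h => hA h.1)]

theorem res_add_compl (A : Set ℕ) (f : ℕ →₀ ℝ) : res A f + res Aᶜ f = f := by
  ext j
  by_cases hA : j ∈ A
  · rw [Finsupp.add_apply, res_apply_mem hA, res_apply_not_mem (by simpa using hA), add_zero]
  · rw [Finsupp.add_apply, res_apply_not_mem hA, res_apply_mem (by simpa using hA), zero_add]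

theorem TK.res {f : ℕ →₀ ℝ} (h : TK f) (A : Set ℕ) : TK (res A f) := by
  induction h with
  | unit i s hs =>
    by_cases hi : i ∈ A
    · rw [res_single_mem hi]
      exact TK.unit i s hs
    · rw [res_single_not_mem hi, ← Finsupp.single_zero i]
      exact TK.unit i 0 (by simp)
  | node n a f ha h0 hf hsupp ih =>
    rw [map_smul, map_sum]
    refine TK.node n a (fun i => Tsirelson.res A (f i)) ha h0 ih ?_
    intro i j hij
    exact hsupp i j (res_apply_ne hij).2

/-- at most one nonzero term -/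
theorem abs_sum_le_of_disj {ι : Type*} (s : Finset ι) (u : ι → ℝ) (C : ℝ) (hC : 0 ≤ C)
    (hu : ∀ i ∈ s, |u i| ≤ C) (hd : ∀ i ∈ s, ∀ j ∈ s, u i ≠ 0 → u j ≠ 0 → i = j) :
    ∑ i ∈ s, |u i| ≤ C := by
  classical
  by_cases h : ∃ i ∈ s, u i ≠ 0
  · obtain ⟨i, hi, hui⟩ := h
    rw [Finset.sum_eq_single_of_mem i hi]
    · exact hu i hi
    · intro j hj hji
      by_contra hne
      have : u j ≠ 0 := fun h => hne (by simp [h])
      exact hji (hd j hj i hi this hui)
  · push Not at h
    rw [Finset.sum_eq_zero]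
    · exact hC
    · intro i hi
      simp [h i hi]

theorem TK.abs_le {f : ℕ →₀ ℝ} (h : TK f) (j : ℕ) : |f j| ≤ 1 := by
  induction h with
  | unit i s hs =>
    classical
    rw [Finsupp.single_apply]
    split_ifs
    · exact hs
    · simp
  | node n a f ha h0 hf hsupp ih =>
    rw [Finsupp.smul_apply, Finsupp.finsetSum_apply, smul_eq_mul, abs_mul]
    have h1 : |∑ i ∈ range n, f i j| ≤ 1 := by
      refine (Finset.abs_sum_le_sum_abs _ _).trans ?_
      refine abs_sum_le_of_disj (range n) (fun i => f i j) 1 zero_le_one (fun i _ => ih i) ?_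
      intro i _ i' _ hi hi'
      have h1 := hsupp i j hi
      have h2 := hsupp i' j hi'
      rcases lt_trichotomy i i' with h | h | h
      · have := ha (Nat.succ_le_of_lt h)
        simp only [Nat.succ_eq_add_one] at this
        omega
      · exact h
      · have := ha (Nat.succ_le_of_lt h)
        simp only [Nat.succ_eq_add_one] at this
        omega
    have h2 : |(1/2 : ℝ)| = 1/2 := abs_of_pos (by norm_num)
    rw [h2]
    linarith [abs_nonneg (∑ i ∈ range n, f i j)]

/-- The index type. -/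
abbrev KK := {f : ℕ →₀ ℝ // TK f}

/-- The ambient space. -/
abbrev LL := lp (fun _ : KK => ℝ) ∞

/-- unit vectors as norming functionals. -/
def ee (j : ℕ) : KK := ⟨Finsupp.single j 1, TK.unit j 1 (by simp)⟩

instance : Nonempty KK := ⟨ee 0⟩

/-- The coordinate functional on the ambient space. -/
def cc (f : KK) : LL →L[ℝ] ℝ := lp.evalCLM ℝ (fun _ : KK => ℝ) ∞ f

theorem cc_apply (f : KK) (F : LL) : cc f F = F f := rfl

/-- Tsirelson's space (Figiel-Johnson form), as a closed subspace of a space of bounded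
functions. -/
def YY : Submodule ℝ LL where
  carrier := {F | ∀ f : KK, cc f F = f.1.sum (fun j c => c * cc (ee j) F)}
  add_mem' := by
    intro F G hF hG f
    rw [map_add, hF f, hG f, ← Finsupp.sum_add]
    congr 1
    funext j c
    rw [map_add]
    ring
  zero_mem' := by
    intro f
    simp
  smul_mem' := by
    intro c F hF f
    rw [map_smul, hF f, Finsupp.smul_sum]
    congr 1
    funext j c
    rw [map_smul, smul_eq_mul, smul_eq_mul]
    ring

theorem isClosed_YY : IsClosed (YY : Set LL) := by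
  have : (YY : Set LL) = ⋂ f : KK, {F | cc f F = f.1.sum (fun j c => c * cc (ee j) F)} := by
    ext F
    simp [YY]
  rw [this]
  apply isClosed_iInter
  intro f
  apply isClosed_eq (cc f).continuous
  unfold Finsupp.sum
  fun_prop

/-- Tsirelson's space as a type. -/
def TT : Type := ↥YY

instance : NormedAddCommGroup TT := inferInstanceAs (NormedAddCommGroup ↥YY)

instance : NormedSpace ℝ TT := inferInstanceAs (NormedSpace ℝ ↥YY)

instance : CompleteSpace TT := by
  have : CompleteSpace ↥YY := isClosed_YY.completeSpace_coe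
  exact this

/-- The inclusion in the ambient space -/
def emb : TT →L[ℝ] LL := YY.subtypeL

theorem norm_emb (y : TT) : ‖emb y‖ = ‖y‖ := rfl

theorem emb_mem (y : TT) (f : KK) : cc f (emb y) = f.1.sum (fun j c => c * cc (ee j) (emb y)) :=
  y.2 f

theorem emb_injective {y z : TT} (h : emb y = emb z) : y = z := Subtype.ext h

/-- Coordinate functionals on the space. -/
def coord (j : ℕ) : StrongDual ℝ TT := (cc (ee j)).comp emb

/-- pairing with finitely supported sequences -/
def pairL : (ℕ →₀ ℝ) →ₗ[ℝ] StrongDual ℝ TT := Finsupp.linearCombination ℝ coord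

theorem pairL_single (j : ℕ) (s : ℝ) : pairL (Finsupp.single j s) = s • coord j := by
  simp [pairL]

theorem pairL_apply (g : ℕ →₀ ℝ) (y : TT) : pairL g y = g.sum (fun j c => c * coord j y) := by
  rw [pairL, Finsupp.linearCombination_apply, Finsupp.sum, Finsupp.sum]
  simp

theorem pairL_mem {f : ℕ →₀ ℝ} (hf : TK f) (y : TT) : pairL f y = (emb y) ⟨f, hf⟩ := by
  rw [pairL_apply]
  exact (emb_mem y ⟨f, hf⟩).symm

theorem abs_pairL_le {f : ℕ →₀ ℝ} (hf : TK f) (y : TT) : |pairL f y| ≤ ‖y‖ := by
  rw [pairL_mem hf]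
  exact lp.norm_apply_le_norm (by simp) (emb y) ⟨f, hf⟩

theorem norm_le_of_forall {y : TT} {C : ℝ} (h : ∀ f, TK f → |pairL f y| ≤ C) : ‖y‖ ≤ C := by
  have : ‖emb y‖ ≤ C := by
    apply lp.norm_le_of_forall_le'
    rintro ⟨f, hf⟩
    have := h f hf
    rw [pairL_mem hf] at this
    exact this
  exact this

theorem norm_pairL_le {f : ℕ →₀ ℝ} (hf : TK f) : ‖pairL f‖ ≤ 1 := by
  apply ContinuousLinearMap.opNorm_le_bound _ zero_le_one
  intro y
  rw [one_mul]
  exact abs_pairL_le hf y

/-- Constructor. -/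
def mkY (F : (ℕ →₀ ℝ) →ₗ[ℝ] ℝ) (C : ℝ) (hF : ∀ f, TK f → |F f| ≤ C) : TT :=
  (⟨⟨fun f => F f.1, memℓp_infty ⟨C, by
    rintro _ ⟨f, rfl⟩
    exact hF f.1 f.2⟩⟩, by
    intro f
    simp only [cc_apply]
    change F f.1 = f.1.sum (fun j c => c * F (Finsupp.single j 1))
    conv_lhs => rw [← Finsupp.sum_single f.1]
    rw [Finsupp.sum, map_sum, Finsupp.sum]
    apply Finset.sum_congr rfl
    intro j _
    have : Finsupp.single j (f.1 j) = f.1 j • Finsupp.single j (1:ℝ) := by simp
    rw [this, map_smul, smul_eq_mul]⟩ : ↥YY)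

theorem pairL_mkY (F : (ℕ →₀ ℝ) →ₗ[ℝ] ℝ) (C : ℝ) (hF : ∀ f, TK f → |F f| ≤ C) (g : ℕ →₀ ℝ) :
    pairL g (mkY F C hF) = F g := by
  rw [pairL_apply]
  have h1 : ∀ j, coord j (mkY F C hF) = F (Finsupp.single j 1) := fun j => rfl
  simp only [h1]
  conv_rhs => rw [← Finsupp.sum_single g]
  rw [Finsupp.sum, Finsupp.sum, map_sum]
  apply Finset.sum_congr rfl
  intro j _
  have : Finsupp.single j (g j) = g j • Finsupp.single j (1:ℝ) := by simp
  rw [this, map_smul, smul_eq_mul]

theorem ext_pairL {y z : TT} (h : ∀ g, pairL g y = pairL g z) : y = z := by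
  apply emb_injective
  apply lp.ext
  funext f
  have := h f.1
  rw [pairL_mem f.2, pairL_mem f.2] at this
  exact this

theorem norm_mkY_le (F : (ℕ →₀ ℝ) →ₗ[ℝ] ℝ) (C : ℝ) (hF : ∀ f, TK f → |F f| ≤ C) :
    ‖mkY F C hF‖ ≤ C := by
  apply norm_le_of_forall
  intro f hf
  rw [pairL_mkY]
  exact hF f hf

/-- Unit vectors of the space. -/
def vec (j : ℕ) : TT := mkY (Finsupp.lapply j) 1
  (fun f hf => by rw [Finsupp.lapply_apply]; exact hf.abs_le j)

theorem pairL_vec (g : ℕ →₀ ℝ) (j : ℕ) : pairL g (vec j) = g j := by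
  rw [vec, pairL_mkY]
  rfl

/-- evaluation as a linear functional on finitely supported functions -/
def evF (y : TT) : (ℕ →₀ ℝ) →ₗ[ℝ] ℝ where
  toFun g := pairL g y
  map_add' g h := by rw [map_add]; rfl
  map_smul' c g := by rw [map_smul]; rfl

theorem evF_apply (y : TT) (g : ℕ →₀ ℝ) : evF y g = pairL g y := rfl

theorem evF_res_le (A : Set ℕ) (y : TT) (f : ℕ →₀ ℝ) (hf : TK f) :
    |((evF y).comp (res A)) f| ≤ ‖y‖ :=
  abs_pairL_le (hf.res A) y

/-- Restriction to a set of coordinates, as a function. -/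
def PPf (A : Set ℕ) (y : TT) : TT := mkY ((evF y).comp (res A)) ‖y‖ (evF_res_le A y)

theorem pairL_PPf (A : Set ℕ) (g : ℕ →₀ ℝ) (y : TT) : pairL g (PPf A y) = pairL (res A g) y := by
  rw [PPf, pairL_mkY]
  rfl

/-- Restriction to a set of coordinates. -/
def PP (A : Set ℕ) : TT →L[ℝ] TT :=
  LinearMap.mkContinuous
    { toFun := PPf A
      map_add' := by
        intro y z
        apply ext_pairL
        intro g
        rw [map_add, pairL_PPf, pairL_PPf, pairL_PPf, map_add]
      map_smul' := by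
        intro c y
        apply ext_pairL
        intro g
        rw [RingHom.id_apply, map_smul, pairL_PPf, pairL_PPf, map_smul] } 1 (by
      intro y
      rw [one_mul]
      exact norm_mkY_le _ _ (evF_res_le A y))

theorem pairL_PP (A : Set ℕ) (g : ℕ →₀ ℝ) (y : TT) : pairL g (PP A y) = pairL (res A g) y :=
  pairL_PPf A g y

theorem norm_PP_le (A : Set ℕ) : ‖PP A‖ ≤ 1 :=
  LinearMap.mkContinuous_norm_le _ zero_le_one _

theorem norm_PP_apply_le (A : Set ℕ) (y : TT) : ‖PP A y‖ ≤ ‖y‖ := by
  have := (PP A).le_opNorm y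
  have h2 := norm_PP_le A
  nlinarith [norm_nonneg y]

theorem PP_PP (A B : Set ℕ) (y : TT) : PP A (PP B y) = PP (A ∩ B) y := by
  apply ext_pairL
  intro g
  rw [pairL_PP, pairL_PP, pairL_PP, res_res, Set.inter_comm]

theorem PP_add_compl (A : Set ℕ) (y : TT) : PP A y + PP Aᶜ y = y := by
  apply ext_pairL
  intro g
  have : pairL (res A g + res Aᶜ g) = pairL (res A g) + pairL (res Aᶜ g) := map_add _ _ _
  rw [map_add, pairL_PP, pairL_PP, ← add_apply, ← this, res_add_compl]

theorem norm_vec_le (j : ℕ) : ‖vec j‖ ≤ 1 := norm_mkY_le _ _ _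

theorem norm_coord_le (j : ℕ) : ‖coord j‖ ≤ 1 := by
  have := norm_pairL_le (TK.unit j 1 (by simp))
  rwa [pairL_single, one_smul] at this

theorem coord_vec (i j : ℕ) : coord i (vec j) = (Finsupp.single i (1:ℝ)) j := by
  have := pairL_vec (Finsupp.single i 1) j
  rwa [pairL_single, one_smul] at this

theorem res_Iio (N : ℕ) (g : ℕ →₀ ℝ) :
    res (Set.Iio N) g = ∑ j ∈ range N, Finsupp.single j (g j) := by
  classical
  ext i
  rw [Finsupp.finsetSum_apply]
  by_cases hi : i < N
  · rw [res_apply_mem (by simpa using hi)]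
    rw [Finset.sum_eq_single i]
    · simp
    · intro j _ hj
      simp [hj]
    · intro h
      exact absurd (Finset.mem_range.mpr hi) h
  · rw [res_apply_not_mem (by simpa using hi)]
    rw [Finset.sum_eq_zero]
    intro j hj
    have : j ≠ i := by
      intro h
      apply hi
      rw [← h]
      exact Finset.mem_range.mp hj
    simp [this]

theorem PP_Iio (N : ℕ) (y : TT) : PP (Set.Iio N) y = ∑ j ∈ range N, coord j y • vec j := by
  apply ext_pairL
  intro g
  rw [pairL_PP, res_Iio, map_sum, map_sum]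
  simp only [pairL_single, map_smul, pairL_vec, smul_eq_mul]
  rw [_root_.sum_apply]
  apply Finset.sum_congr rfl
  intro j _
  rw [_root_.smul_apply, smul_eq_mul, mul_comm]

theorem exists_TK_ge (y : TT) {ε : ℝ} (hε : 0 < ε) : ∃ f, TK f ∧ ‖y‖ - ε ≤ pairL f y := by
  by_contra hcon
  push Not at hcon
  have : ‖y‖ ≤ ‖y‖ - ε := by
    apply norm_le_of_forall
    intro f hf
    rw [abs_le]
    constructor
    · have := hcon (-f) hf.neg
      rw [map_neg, _root_.neg_apply] at this
      linarith
    · exact (hcon f hf).le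
  linarith

theorem lower_est (n : ℕ) (a b : ℕ → ℕ) (hn : n ≤ a 0) (hab : ∀ i, a i ≤ b i)
    (hba : ∀ i, b i ≤ a (i+1)) (y : TT) :
    (1/2 : ℝ) * ∑ i ∈ range n, ‖PP (Set.Ico (a i) (b i)) y‖ ≤ ‖y‖ := by
  have hmono : Monotone a := monotone_nat_of_le_succ (fun i => (hab i).trans (hba i))
  have key : ∀ ε : ℝ, 0 < ε →
      (1/2 : ℝ) * ∑ i ∈ range n, ‖PP (Set.Ico (a i) (b i)) y‖ ≤ ‖y‖ + n * ε := by
    intro ε hε
    choose f hf hfge using fun i => exists_TK_ge (PP (Set.Ico (a i) (b i)) y) hε
    have hnode : TK ((1/2 : ℝ) • ∑ i ∈ range n, res (Set.Ico (a i) (b i)) (f i)) := by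
      refine TK.node n a (fun i => res (Set.Ico (a i) (b i)) (f i)) hmono hn
        (fun i => (hf i).res _) ?_
      intro i j hij
      have := (res_apply_ne hij).1
      exact ⟨this.1, lt_of_lt_of_le this.2 (hba i)⟩
    have h1 := abs_pairL_le hnode y
    have h2 : pairL ((1/2 : ℝ) • ∑ i ∈ range n, res (Set.Ico (a i) (b i)) (f i)) y =
        (1/2 : ℝ) * ∑ i ∈ range n, pairL (f i) (PP (Set.Ico (a i) (b i)) y) := by
      rw [map_smul, map_sum, _root_.smul_apply, _root_.sum_apply,
        smul_eq_mul]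
      simp only [pairL_PP]
    rw [h2] at h1
    have h3 := (abs_le.mp h1).2
    have h4 : ∑ i ∈ range n, (‖PP (Set.Ico (a i) (b i)) y‖ - ε) ≤
        ∑ i ∈ range n, pairL (f i) (PP (Set.Ico (a i) (b i)) y) :=
      Finset.sum_le_sum (fun i _ => hfge i)
    rw [Finset.sum_sub_distrib, Finset.sum_const, card_range, nsmul_eq_mul] at h4
    have h5 : 0 ≤ (n : ℝ) * ε := by positivity
    linarith
  apply le_of_forall_pos_le_add
  intro ε hε
  have h6 := key (ε / (n + 1)) (by positivity)
  have h7 : (n : ℝ) * (ε / (n + 1)) ≤ ε := by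
    rw [mul_div_assoc', div_le_iff₀ (by positivity)]
    nlinarith
  linarith

theorem PP_norm_mono {A B : Set ℕ} (h : A ⊆ B) (y : TT) : ‖PP A y‖ ≤ ‖PP B y‖ := by
  have : PP A y = PP A (PP B y) := by
    rw [PP_PP, Set.inter_eq_left.mpr h]
  rw [this]
  exact norm_PP_apply_le _ _

theorem exists_Ico_ge (y : TT) (m : ℕ) {δ : ℝ} (hδ : 0 < δ) (h : δ ≤ ‖PP (Set.Ici m) y‖) :
    ∃ M, m ≤ M ∧ δ / 2 ≤ ‖PP (Set.Ico m M) y‖ := by
  obtain ⟨f, hf, hfge⟩ := exists_TK_ge (PP (Set.Ici m) y) (half_pos hδ)
  obtain ⟨M, hM⟩ : ∃ M, ∀ j, f j ≠ 0 → j < M := by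
    refine ⟨f.support.sup id + 1, fun j hj => ?_⟩
    have : j ∈ f.support := by simpa using hj
    have := Finset.le_sup (f := id) this
    simp only [id] at this
    omega
  refine ⟨max m M, le_max_left _ _, ?_⟩
  have h1 : pairL f (PP (Set.Ici m) y) = pairL f (PP (Set.Ico m (max m M)) y) := by
    rw [pairL_PP, pairL_PP]
    congr 2
    ext j
    by_cases hj : j ∈ Set.Ico m (max m M)
    · rw [res_apply_mem hj, res_apply_mem (by simpa using hj.1)]
    · rw [res_apply_not_mem hj]
      by_cases hj' : j ∈ Set.Ici m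
      · rw [res_apply_mem hj']
        by_contra hne
        apply hj
        exact ⟨hj', lt_of_lt_of_le (hM j hne) (le_max_right _ _)⟩
      · rw [res_apply_not_mem hj']
  have h2 := abs_pairL_le hf (PP (Set.Ico m (max m M)) y)
  rw [← h1] at h2
  have h3 := (abs_le.mp h2).2
  linarith

theorem tendsto_PP_Ici (y : TT) : Tendsto (fun N => ‖PP (Set.Ici N) y‖) atTop (𝓝 0) := by
  have hanti : Antitone (fun N => ‖PP (Set.Ici N) y‖) := by
    intro m n hmn
    exact PP_norm_mono (Set.Ici_subset_Ici.mpr hmn) y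
  by_contra hcon
  have hδ : ∃ δ > 0, ∀ N, δ ≤ ‖PP (Set.Ici N) y‖ := by
    by_contra h
    push Not at h
    apply hcon
    rw [Metric.tendsto_atTop]
    intro ε hε
    obtain ⟨N, hN⟩ := h ε hε
    refine ⟨N, fun n hn => ?_⟩
    rw [Real.dist_eq, sub_zero, abs_of_nonneg (norm_nonneg _)]
    exact lt_of_le_of_lt (hanti hn) hN
  obtain ⟨δ, hδ, hδN⟩ := hδ
  choose M hM hMge using fun m => exists_Ico_ge y m hδ (hδN m)
  obtain ⟨n, hn⟩ := exists_nat_gt (‖y‖ / (δ / 4))
  let a : ℕ → ℕ := fun i => M^[i] n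
  have ha : ∀ i, a (i + 1) = M (a i) := fun i => Function.iterate_succ_apply' M i n
  have h1 := lower_est n a (fun i => a (i+1)) (le_refl n)
    (fun i => by rw [ha]; exact hM _) (fun i => le_refl _) y
  have h2 : ∑ i ∈ range n, (δ / 2) ≤ ∑ i ∈ range n, ‖PP (Set.Ico (a i) (a (i+1))) y‖ := by
    apply Finset.sum_le_sum
    intro i _
    rw [ha]
    exact hMge _
  rw [Finset.sum_const, card_range, nsmul_eq_mul] at h2
  rw [div_lt_iff₀ (by positivity)] at hn
  linarith

theorem tendsto_PP_Iio (y : TT) : Tendsto (fun N => PP (Set.Iio N) y) atTop (𝓝 y) := by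
  rw [tendsto_iff_norm_sub_tendsto_zero]
  have : (fun N => ‖PP (Set.Iio N) y - y‖) = fun N => ‖PP (Set.Ici N) y‖ := by
    funext N
    have h := PP_add_compl (Set.Iio N) y
    rw [Set.compl_Iio] at h
    have h2 : PP (Set.Iio N) y - y = - PP (Set.Ici N) y := by
      rw [eq_comm, neg_eq_iff_eq_neg, neg_sub, eq_comm, sub_eq_iff_eq_add, add_comm]
      exact h.symm
    rw [h2, norm_neg]
  rw [this]
  exact tendsto_PP_Ici y

/-- enumeration of a finite set extended to a strictly monotone sequence -/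
theorem exists_enum (s : Finset ℕ) : ∃ e : ℕ → ℕ, StrictMono e ∧ ∀ k < s.card, e k ∈ s := by
  classical
  let o := s.orderEmbOfFin rfl
  refine ⟨fun k => if h : k < s.card then o ⟨k, h⟩ else s.sup id + 1 + k, ?_, ?_⟩
  · apply strictMono_nat_of_lt_succ
    intro k
    by_cases h1 : k + 1 < s.card
    · have h0 : k < s.card := by omega
      simp only [h1, h0, dif_pos]
      apply o.strictMono
      exact Fin.mk_lt_mk.mpr (Nat.lt_succ_self k)
    · by_cases h0 : k < s.card
      · simp only [h1, h0, dif_pos, dif_neg, not_false_eq_true]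
        have hm : o ⟨k, h0⟩ ∈ s := Finset.orderEmbOfFin_mem s rfl _
        have := Finset.le_sup (f := id) hm
        simp only [id] at this
        omega
      · simp only [h1, h0, dif_neg, not_false_eq_true]
        omega
  · intro k hk
    simp only [hk, dif_pos]
    exact Finset.orderEmbOfFin_mem s rfl _

/-- Weak `l_1` estimate for block norms. -/
theorem weak_l1 (p : ℕ → ℕ) (hp : StrictMono p) (y : TT) (δ : ℝ) (hδ : 0 < δ) (s : Finset ℕ)
    (hs : ∀ i ∈ s, δ < ‖PP (Set.Ico (p i) (p (i+1))) y‖) :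
    (s.card : ℝ) ≤ 4 * ‖y‖ / δ + 1 := by
  obtain ⟨e, he, hes⟩ := exists_enum s
  set m := s.card with hm
  set n := m / 2 with hn
  have hpe : ∀ k, k ≤ p (e k) := fun k => (he.id_le k).trans (hp.id_le _)
  have h1 := lower_est n (fun k => p (e (m - n + k))) (fun k => p (e (m - n + k) + 1))
    (by
      have := hpe (m - n + 0)
      omega)
    (fun k => hp.monotone (Nat.le_succ _))
    (fun k => hp.monotone (by
      have := he (show m - n + k < m - n + (k + 1) by omega)
      omega)) y
  have h2 : ∑ i ∈ range n, δ ≤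
      ∑ k ∈ range n, ‖PP (Set.Ico (p (e (m - n + k))) (p (e (m - n + k) + 1))) y‖ := by
    apply Finset.sum_le_sum
    intro k hk
    have hk' := Finset.mem_range.mp hk
    exact (hs _ (hes _ (by omega))).le
  rw [Finset.sum_const, card_range, nsmul_eq_mul] at h2
  have h3 : (m : ℝ) ≤ 2 * n + 1 := by
    have : m ≤ 2 * n + 1 := by omega
    exact_mod_cast this
  have h4 : (n : ℝ) * δ ≤ 2 * ‖y‖ := by linarith
  have h5 : (n : ℝ) ≤ 2 * ‖y‖ / δ := by
    rw [le_div_iff₀ hδ]
    exact h4
  have h6 : 4 * ‖y‖ / δ = 2 * (2 * ‖y‖ / δ) := by ring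
  rw [h6]
  linarith

theorem pairL_PP_eq_zero {A : Set ℕ} {f : ℕ →₀ ℝ} (h : ∀ j ∈ A, f j = 0) (y : TT) :
    pairL f (PP A y) = 0 := by
  have : res A f = 0 := by
    ext j
    by_cases hj : j ∈ A
    · rw [res_apply_mem hj, h j hj]
      rfl
    · rw [res_apply_not_mem hj]
      rfl
  rw [pairL_PP, this, map_zero]
  rfl

/-- The key norm estimate behind the shrinking property. -/
theorem avg_est (m : ℕ → ℕ) (hm : StrictMono m) (v : ℕ → TT) (hv : ∀ i, ‖v i‖ ≤ 1)
    (hsupp : ∀ i, PP (Set.Ico (m i) (m (i+1))) (v i) = v i) (k : ℕ) (hk : 0 < k) :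
    ‖v 0 + (1 / (k:ℝ)) • ∑ i ∈ range k, v (i+1)‖ ≤ 3/2 + (m 1 : ℝ) / k := by
  have hk' : (0:ℝ) < k := by exact_mod_cast hk
  have hbound : ∀ f, TK f → ∀ i, |pairL f (v i)| ≤ 1 := fun f hf i =>
    (abs_pairL_le hf _).trans (hv i)
  have hzero : ∀ (f : ℕ →₀ ℝ) (i : ℕ), (∀ j, m i ≤ j → j < m (i+1) → f j = 0) →
      pairL f (v i) = 0 := by
    intro f i hf
    rw [← hsupp i]
    exact pairL_PP_eq_zero (fun j hj => hf j hj.1 hj.2) _
  have hexp : ∀ f : ℕ →₀ ℝ, |pairL f (v 0 + (1 / (k:ℝ)) • ∑ i ∈ range k, v (i+1))| ≤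
      |pairL f (v 0)| + (1/(k:ℝ)) * ∑ i ∈ range k, |pairL f (v (i+1))| := by
    intro f
    rw [map_add, map_smul, map_sum, smul_eq_mul]
    refine (abs_add_le _ _).trans ?_
    rw [abs_mul, abs_of_pos (by positivity : (0:ℝ) < 1/k)]
    gcongr
    exact Finset.abs_sum_le_sum_abs _ _
  have hm1 : (0:ℝ) ≤ (m 1 : ℝ) / k := by positivity
  -- if `f` vanishes on `[0, m 1)`
  have hcase1 : ∀ f, TK f → (∀ j, j < m 1 → f j = 0) →
      |pairL f (v 0 + (1 / (k:ℝ)) • ∑ i ∈ range k, v (i+1))| ≤ 3/2 + (m 1 : ℝ) / k := by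
    intro f hf hf0
    refine (hexp f).trans ?_
    rw [hzero f 0 (fun j _ hj => hf0 j hj), abs_zero, zero_add]
    have : ∑ i ∈ range k, |pairL f (v (i+1))| ≤ ∑ i ∈ range k, (1:ℝ) :=
      Finset.sum_le_sum (fun i _ => hbound f hf _)
    rw [Finset.sum_const, card_range, nsmul_eq_mul, mul_one] at this
    have h2 : (1/(k:ℝ)) * ∑ i ∈ range k, |pairL f (v (i+1))| ≤ (1/(k:ℝ)) * k := by gcongr
    rw [one_div, inv_mul_cancel₀ hk'.ne'] at h2
    rw [one_div]
    linarith
  apply norm_le_of_forall
  intro f hf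
  cases hf with
  | unit j s hs =>
    by_cases hj : j < m 1
    · refine (hexp _).trans ?_
      have h1 : ∀ i, pairL (Finsupp.single j s) (v (i+1)) = 0 := by
        intro i
        apply hzero
        intro j' hj' _
        have h3 : m 1 ≤ m (i+1) := hm.monotone (by omega)
        have : j ≠ j' := by omega
        simp [this]
      simp only [h1, abs_zero, Finset.sum_const_zero, mul_zero, add_zero]
      have := hbound _ (TK.unit j s hs) 0
      linarith
    · apply hcase1 _ (TK.unit j s hs)
      intro j' hj'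
      have : j ≠ j' := by omega
      simp [this]
  | node n a g ha h0 hg hsg =>
    have hTK : TK ((1/2 : ℝ) • ∑ i ∈ range n, g i) := TK.node n a g ha h0 hg hsg
    by_cases hn : m 1 ≤ n
    · apply hcase1 _ hTK
      intro j hj
      rw [Finsupp.smul_apply, Finsupp.finsetSum_apply, Finset.sum_eq_zero, smul_zero]
      intro i _
      by_contra hne
      have h1 := (hsg i j hne).1
      have h2 := ha (Nat.zero_le i)
      omega
    · push Not at hn
      refine (hexp _).trans ?_
      have h1 := hbound _ hTK 0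
      -- the set of split blocks
      classical
      let bad : Finset ℕ := (range k).filter
        (fun i => ∃ l < n, m (i+1) < a l ∧ a l < m (i+2))
      have hbadcard : bad.card ≤ n := by
        have hch : ∀ i ∈ bad, ∃ l < n, m (i+1) < a l ∧ a l < m (i+2) := by
          intro i hi
          exact (Finset.mem_filter.mp hi).2
        choose! l hl1 hl2 hl3 using hch
        calc bad.card ≤ (range n).card := by
              apply Finset.card_le_card_of_injOn l
              · intro i hi
                exact Finset.mem_coe.mpr (Finset.mem_range.mpr (hl1 i hi))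
              · intro i hi i' hi' hii
                have a1 := hl2 i hi
                have a2 := hl3 i hi
                have a3 := hl2 i' hi'
                have a4 := hl3 i' hi'
                rw [hii] at a1 a2
                rcases lt_trichotomy i i' with h | h | h
                · have := hm.monotone (show i + 2 ≤ i' + 1 by omega)
                  omega
                · exact h
                · have := hm.monotone (show i' + 2 ≤ i + 1 by omega)
                  omega
          _ = n := card_range n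
      have hgood : ∀ i ∈ range k, |pairL ((1/2 : ℝ) • ∑ i ∈ range n, g i) (v (i+1))| ≤
          1/2 + (if i ∈ bad then (1:ℝ)/2 else 0) := by
        intro i hi
        by_cases hib : i ∈ bad
        · rw [if_pos hib]
          have := hbound _ hTK (i+1)
          linarith
        · rw [if_neg hib, add_zero]
          have hnb : ∀ l < n, ¬ (m (i+1) < a l ∧ a l < m (i+2)) := by
            intro l hl hcon
            exact hib (Finset.mem_filter.mpr ⟨hi, l, hl, hcon⟩)
          rw [map_smul, map_sum, _root_.smul_apply, _root_.sum_apply, smul_eq_mul, abs_mul,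
            abs_of_pos (by norm_num : (0:ℝ) < 1/2)]
          have h2 : |∑ l ∈ range n, pairL (g l) (v (i+1))| ≤ 1 := by
            refine (Finset.abs_sum_le_sum_abs _ _).trans ?_
            apply abs_sum_le_of_disj (range n) (fun l => pairL (g l) (v (i+1))) 1 zero_le_one
            · intro l _
              exact hbound _ (hg l) _
            · -- no two blocks
              have hne : ∀ l, pairL (g l) (v (i+1)) ≠ 0 → a l < m (i+2) ∧ m (i+1) < a (l+1) := by
                intro l hl
                by_contra hcon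
                apply hl
                apply hzero
                intro j hj1 hj2
                by_contra hne
                have := hsg l j hne
                apply hcon
                constructor
                · exact lt_of_le_of_lt this.1 hj2
                · exact lt_of_le_of_lt hj1 this.2
              have hlt : ∀ l l', l' ∈ range n → l < l' → pairL (g l) (v (i+1)) ≠ 0 →
                  pairL (g l') (v (i+1)) ≠ 0 → False := by
                intro l l' hl' hll hl hl2
                have b1 := hne l hl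
                have b2 := hne l' hl2
                have b3 := ha (show l + 1 ≤ l' by omega)
                exact hnb l' (Finset.mem_range.mp hl') ⟨lt_of_lt_of_le b1.2 b3, b2.1⟩
              intro l hl l' hl' hu hu'
              rcases lt_trichotomy l l' with h | h | h
              · exact (hlt l l' hl' h hu hu').elim
              · exact h
              · exact (hlt l' l hl h hu' hu).elim
          linarith
      have hsum : ∑ i ∈ range k, |pairL ((1/2 : ℝ) • ∑ i ∈ range n, g i) (v (i+1))| ≤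
          k / 2 + n / 2 := by
        refine (Finset.sum_le_sum hgood).trans ?_
        rw [Finset.sum_add_distrib, Finset.sum_const, card_range, nsmul_eq_mul,
          ← Finset.sum_filter]
        rw [Finset.sum_const, nsmul_eq_mul]
        have h3 : ((filter (fun i => i ∈ bad) (range k)).card : ℝ) ≤ n := by
          have : (filter (fun i => i ∈ bad) (range k)).card ≤ bad.card := by
            apply Finset.card_le_card
            intro i hi
            exact (Finset.mem_filter.mp hi).2
          exact_mod_cast this.trans hbadcard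
        linarith
      have h4 : (1/(k:ℝ)) * ∑ i ∈ range k,
          |pairL ((1/2 : ℝ) • ∑ i ∈ range n, g i) (v (i+1))| ≤ (1/(k:ℝ)) * (k/2 + n/2) := by
        gcongr
      have h5 : (1/(k:ℝ)) * (k/2 + n/2) = 1/2 + (n:ℝ) / k / 2 := by
        field_simp
      have h6 : (n:ℝ) / k ≤ (m 1 : ℝ) / k := by
        gcongr
      have h7 : (0:ℝ) ≤ (n:ℝ) / k := by positivity
      rw [h5] at h4
      linarith

theorem PP_univ (y : TT) : PP Set.univ y = y := by
  apply ext_pairL
  intro g
  rw [pairL_PP]
  congr 2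
  ext j
  rw [res_apply_mem (Set.mem_univ j)]

theorem norm_comp_PP_anti (x : StrongDual ℝ TT) :
    Antitone (fun N => ‖x.comp (PP (Set.Ici N))‖) := by
  intro m n hmn
  have h : x.comp (PP (Set.Ici n)) = (x.comp (PP (Set.Ici m))).comp (PP (Set.Ici n)) := by
    ext y
    simp only [ContinuousLinearMap.comp_apply]
    rw [PP_PP, Set.inter_eq_right.mpr (Set.Ici_subset_Ici.mpr hmn)]
  change ‖x.comp (PP (Set.Ici n))‖ ≤ ‖x.comp (PP (Set.Ici m))‖
  rw [h]
  refine (ContinuousLinearMap.opNorm_comp_le _ _).trans ?_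
  have := norm_PP_le (Set.Ici n)
  have h2 := norm_nonneg (x.comp (PP (Set.Ici m)))
  nlinarith

/-- The unit vector basis is shrinking. -/
theorem tendsto_comp_PP_Ici (x : StrongDual ℝ TT) :
    Tendsto (fun N => ‖x.comp (PP (Set.Ici N))‖) atTop (𝓝 0) := by
  have hanti := norm_comp_PP_anti x
  by_contra hcon
  -- the infimum is positive
  set c : ℝ := ⨅ N, ‖x.comp (PP (Set.Ici N))‖ with hc
  have hbdd : BddBelow (Set.range (fun N => ‖x.comp (PP (Set.Ici N))‖)) :=
    ⟨0, by rintro _ ⟨N, rfl⟩; exact norm_nonneg (x.comp (PP (Set.Ici N)))⟩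
  have hlim : Tendsto (fun N => ‖x.comp (PP (Set.Ici N))‖) atTop (𝓝 c) :=
    tendsto_atTop_ciInf hanti hbdd
  have hc0 : 0 ≤ c := le_ciInf (fun N => norm_nonneg (x.comp (PP (Set.Ici N))))
  have hcpos : 0 < c := by
    rcases hc0.lt_or_eq with h | h
    · exact h
    · rw [← h] at hlim
      exact absurd hlim hcon
  have hle : ∀ N, c ≤ ‖x.comp (PP (Set.Ici N))‖ := fun N => ciInf_le hbdd N
  obtain ⟨N0, hN0⟩ : ∃ N, ‖x.comp (PP (Set.Ici N))‖ < 1.05 * c := by
    have : ∀ᶠ N in atTop, ‖x.comp (PP (Set.Ici N))‖ < 1.05 * c :=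
      hlim.eventually_lt_const (by linarith)
    exact this.exists
  -- choice of vectors
  have hchoice : ∀ m : ℕ, ∃ M, m < M ∧ ∃ v : TT, ‖v‖ ≤ 1 ∧ PP (Set.Ico m M) v = v ∧
      0.95 * c < x v := by
    intro m
    have h1 : 0.95 * c < ‖x.comp (PP (Set.Ici m))‖ := by
      have := hle m
      linarith
    obtain ⟨u, hu1, hu2⟩ := ContinuousLinearMap.exists_lt_apply_of_lt_opNorm _ h1
    obtain ⟨w, hw1, hw2⟩ : ∃ w : TT, ‖w‖ ≤ 1 ∧ 0.95 * c < x (PP (Set.Ici m) w) := by
      rw [Real.norm_eq_abs, lt_abs] at hu2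
      rcases hu2 with h | h
      · exact ⟨u, hu1.le, h⟩
      · refine ⟨-u, by rw [norm_neg]; exact hu1.le, ?_⟩
        rw [map_neg, map_neg]
        exact h
    have h2 : Tendsto (fun M => x (PP (Set.Ico m M) w)) atTop (𝓝 (x (PP (Set.Ici m) w))) := by
      have h3 : (fun M => x (PP (Set.Ico m M) w)) =
          fun M => x (PP (Set.Ici m) (PP (Set.Iio M) w)) := by
        funext M
        rw [PP_PP]
        rfl
      rw [h3]
      have h4 : Continuous (fun y => x (PP (Set.Ici m) y)) := by fun_prop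
      exact (h4.tendsto w).comp (tendsto_PP_Iio w)
    obtain ⟨M, hM1, hM2⟩ := ((h2.eventually_const_lt hw2).and (eventually_gt_atTop m)).exists
    refine ⟨M, hM2, PP (Set.Ico m M) w, (norm_PP_apply_le _ _).trans hw1, ?_, hM1⟩
    rw [PP_PP, Set.inter_self]
  choose Mf hMf vf hvf1 hvf2 hvf3 using hchoice
  let m : ℕ → ℕ := fun i => Mf^[i] N0
  have hm' : ∀ i, m (i + 1) = Mf (m i) := fun i => Function.iterate_succ_apply' Mf i N0
  have hm : StrictMono m := by
    apply strictMono_nat_of_lt_succ
    intro i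
    rw [hm']
    exact hMf _
  let v : ℕ → TT := fun i => vf (m i)
  have hsupp : ∀ i, PP (Set.Ico (m i) (m (i+1))) (v i) = v i := by
    intro i
    rw [hm']
    exact hvf2 _
  have hv : ∀ i, ‖v i‖ ≤ 1 := fun i => hvf1 _
  have hxv : ∀ i, 0.95 * c < x (v i) := fun i => hvf3 _
  set k : ℕ := 10 * m 1 + 1 with hk
  have hk0 : 0 < k := by omega
  have hkR : (0:ℝ) < k := by exact_mod_cast hk0
  have hest := avg_est m hm v hv hsupp k hk0
  have h5 : (m 1 : ℝ) / k ≤ 1 / 10 := by
    rw [div_le_iff₀ hkR, hk]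
    push_cast
    linarith
  set w := v 0 + (1 / (k:ℝ)) • ∑ i ∈ range k, v (i+1) with hw
  have h6 : 1.9 * c ≤ x w := by
    rw [hw, map_add, map_smul, map_sum, smul_eq_mul]
    have h7 : ∑ i ∈ range k, (0.95 * c) ≤ ∑ i ∈ range k, x (v (i+1)) :=
      Finset.sum_le_sum (fun i _ => (hxv _).le)
    rw [Finset.sum_const, card_range, nsmul_eq_mul] at h7
    have h8 : (1/(k:ℝ)) * (k * (0.95 * c)) ≤ (1/(k:ℝ)) * ∑ i ∈ range k, x (v (i+1)) := by
      gcongr
    have h9 : (1/(k:ℝ)) * (k * (0.95 * c)) = 0.95 * c := by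
      field_simp
    have := hxv 0
    rw [h9] at h8
    linarith
  have h10 : PP (Set.Ici N0) w = w := by
    have hvi : ∀ i, PP (Set.Ici N0) (v i) = v i := by
      intro i
      rw [← hsupp i, PP_PP]
      congr 2
      apply Set.inter_eq_right.mpr
      intro j hj
      have : m 0 ≤ m i := hm.monotone (Nat.zero_le i)
      exact (show N0 ≤ m i from this).trans hj.1
    rw [hw, map_add, map_smul, map_sum, hvi 0]
    simp only [hvi]
  have h11 : x w ≤ ‖x.comp (PP (Set.Ici N0))‖ * ‖w‖ := by
    have := (x.comp (PP (Set.Ici N0))).le_opNorm w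
    rw [ContinuousLinearMap.comp_apply, h10, Real.norm_eq_abs] at this
    exact (le_abs_self _).trans this
  have h12 : ‖w‖ ≤ 1.6 := by linarith
  have h13 : ‖x.comp (PP (Set.Ici N0))‖ * ‖w‖ ≤ (1.05 * c) * 1.6 := by
    apply mul_le_mul hN0.le h12 (norm_nonneg _) (by positivity)
  nlinarith

theorem tendsto_comp_PP_Iio (x : StrongDual ℝ TT) :
    Tendsto (fun N => (x.comp (PP (Set.Iio N)) : StrongDual ℝ TT)) atTop (𝓝 x) := by
  refine tendsto_iff_norm_sub_tendsto_zero.mpr ?_
  have : (fun N => ‖(x.comp (PP (Set.Iio N)) : StrongDual ℝ TT) - x‖) =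
      fun N => ‖x.comp (PP (Set.Ici N))‖ := by
    funext N
    have h2 : (x.comp (PP (Set.Iio N)) : StrongDual ℝ TT) - x = - x.comp (PP (Set.Ici N)) := by
      ext y
      have h := PP_add_compl (Set.Iio N) y
      rw [Set.compl_Iio] at h
      have h3 : x (PP (Set.Iio N) y) + x (PP (Set.Ici N) y) = x y := by
        rw [← map_add, h]
      change x (PP (Set.Iio N) y) - x y = - x (PP (Set.Ici N) y)
      linarith
    rw [h2, norm_neg]
  rw [this]
  exact tendsto_comp_PP_Ici x

/-- Reflexivity of Tsirelson's space. -/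
theorem reflexive_TT : Function.Surjective (NormedSpace.inclusionInDoubleDual ℝ TT) := by
  intro G
  -- the candidate
  have hF : ∀ f : ℕ →₀ ℝ, TK f → |((G : StrongDual ℝ TT →ₗ[ℝ] ℝ).comp pairL) f| ≤ ‖G‖ := by
    intro f hf
    change |G (pairL f)| ≤ ‖G‖
    have h1 := G.le_opNorm (pairL f)
    have h2 := norm_pairL_le hf
    have h3 := norm_nonneg G
    rw [Real.norm_eq_abs] at h1
    nlinarith
  let z : TT := mkY ((G : StrongDual ℝ TT →ₗ[ℝ] ℝ).comp pairL) ‖G‖ hF
  have hz : ∀ g, pairL g z = G (pairL g) := by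
    intro g
    exact pairL_mkY _ _ _ g
  refine ⟨z, ?_⟩
  ext x
  rw [NormedSpace.dual_def]
  have h1 : ∀ N, G (x.comp (PP (Set.Iio N))) = x (PP (Set.Iio N) z) := by
    intro N
    have h2 : (x.comp (PP (Set.Iio N)) : StrongDual ℝ TT) = ∑ j ∈ range N, x (vec j) • coord j := by
      ext y
      rw [ContinuousLinearMap.comp_apply, PP_Iio, map_sum, _root_.sum_apply]
      apply Finset.sum_congr rfl
      intro j _
      rw [map_smul, _root_.smul_apply, smul_eq_mul, smul_eq_mul, mul_comm]
    rw [h2, PP_Iio, map_sum, map_sum]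
    apply Finset.sum_congr rfl
    intro j _
    rw [map_smul, map_smul, smul_eq_mul, smul_eq_mul]
    have := hz (Finsupp.single j 1)
    rw [pairL_single, one_smul] at this
    rw [this, mul_comm]
  have h3 : Tendsto (fun N => G (x.comp (PP (Set.Iio N)))) atTop (𝓝 (G x)) :=
    (G.continuous.tendsto x).comp (tendsto_comp_PP_Iio x)
  have h4 : Tendsto (fun N => x (PP (Set.Iio N) z)) atTop (𝓝 (x z)) :=
    (x.continuous.tendsto z).comp (tendsto_PP_Iio z)
  simp only [h1] at h3
  exact tendsto_nhds_unique h4 h3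

/-- The dual of a reflexive space is reflexive. -/
theorem reflexive_dual {E : Type*} [NormedAddCommGroup E] [NormedSpace ℝ E]
    (h : Function.Surjective (NormedSpace.inclusionInDoubleDual ℝ E)) :
    Function.Surjective (NormedSpace.inclusionInDoubleDual ℝ (StrongDual ℝ E)) := by
  intro F
  refine ⟨F.comp (NormedSpace.inclusionInDoubleDual ℝ E), ?_⟩
  ext G
  obtain ⟨y, rfl⟩ := h G
  rfl

theorem coord_linearIndependent : LinearIndependent ℝ coord := by
  rw [linearIndependent_iff]
  intro g hg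
  ext j
  have h1 : pairL g = 0 := hg
  have h2 := pairL_vec g j
  rw [h1] at h2
  simpa using h2.symm

theorem not_finiteDimensional_dual : ¬ FiniteDimensional ℝ (StrongDual ℝ TT) := by
  intro h
  have := coord_linearIndependent.finite
  exact not_finite ℕ

end

end Pool.Agent.Helper72.Tsirelson
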