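import Mathlib

set_option autoImplicit false

/-!
# A subsequence lemma for `L^1`-bounded sequences against weak `l^1` weights
-/

namespace Pool.Agent.Helper72.D1

open MeasureTheory Filter Topology Finset
open scoped ENNReal

/-- weak `l^1` type condition -/
def WeakL1 (c : ℕ → ℝ) : Prop :=
  ∃ B : ℝ, ∀ δ : ℝ, 0 < δ → ∀ s : Finset ℕ, (∀ i ∈ s, δ < c i) → (s.card : ℝ) ≤ B / δ + 1

theorem WeakL1.comp {c : ℕ → ℝ} (h : WeakL1 c) {σ : ℕ → ℕ} (hσ : Function.Injective σ) :
    WeakL1 (fun k => c (σ k)) := by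
  classical
  obtain ⟨B, hB⟩ := h
  refine ⟨B, fun δ hδ s hs => ?_⟩
  have h1 := hB δ hδ (s.image σ) (by
    intro i hi
    obtain ⟨k, hk, rfl⟩ := Finset.mem_image.mp hi
    exact hs k hk)
  rwa [Finset.card_image_of_injective s hσ] at h1

theorem WeakL1.tsum_le {c : ℕ → ℝ} {B : ℝ}
    (hB : ∀ δ : ℝ, 0 < δ → ∀ s : Finset ℕ, (∀ i ∈ s, δ < c i) → (s.card : ℝ) ≤ B / δ + 1)
    {δ : ℝ} (hδ : 0 < δ) :
    ∑' k, (Set.indicator {k | δ < c k} (fun _ => (1:ℝ≥0∞)) k) ≤ ENNReal.ofReal (B / δ + 1) := by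
  classical
  rw [ENNReal.tsum_eq_iSup_sum]
  apply iSup_le
  intro s
  have h1 : ∑ k ∈ s, Set.indicator {k | δ < c k} (fun _ => (1:ℝ≥0∞)) k =
      ((s.filter (fun k => δ < c k)).card : ℝ≥0∞) := by
    rw [Finset.card_eq_sum_ones, Nat.cast_sum, Finset.sum_filter]
    apply Finset.sum_congr rfl
    intro k _
    simp [Set.indicator_apply]
  rw [h1]
  have h2 := hB δ hδ (s.filter (fun k => δ < c k)) (by
    intro i hi
    exact (Finset.mem_filter.mp hi).2)
  rw [← ENNReal.ofReal_natCast]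
  exact ENNReal.ofReal_le_ofReal h2

theorem sum_two_pow_le (J : ℕ) : ∑ j ∈ range J, (2:ℝ≥0∞)^j ≤ 2^J := by
  induction J with
  | zero => simp
  | succ J ih =>
    rw [Finset.sum_range_succ, pow_succ, mul_two]
    gcongr

theorem dyadic_sum_le (x : ℝ≥0∞) (J : ℕ) :
    ∑ j ∈ range J, Set.indicator {y : ℝ≥0∞ | 2^j < y} (fun _ => (2:ℝ≥0∞)^j) x ≤ 2 * x := by
  induction J with
  | zero => simp
  | succ J ih =>
    by_cases h : (2:ℝ≥0∞)^J < x
    · calc ∑ j ∈ range (J+1), Set.indicator {y : ℝ≥0∞ | 2^j < y} (fun _ => (2:ℝ≥0∞)^j) x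
          ≤ ∑ j ∈ range (J+1), (2:ℝ≥0∞)^j := by
            apply Finset.sum_le_sum
            intro j _
            exact Set.indicator_le_self' (fun _ _ => zero_le) x
        _ ≤ 2^(J+1) := sum_two_pow_le _
        _ = 2 * 2^J := by rw [pow_succ, mul_comm]
        _ ≤ 2 * x := by gcongr
    · rw [Finset.sum_range_succ]
      have : Set.indicator {y : ℝ≥0∞ | 2^J < y} (fun _ => (2:ℝ≥0∞)^J) x = 0 := by
        apply Set.indicator_of_notMem
        exact h
      rw [this, add_zero]
      exact ih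

variable {Ω : Type*} [MeasurableSpace Ω]

theorem markov_sum (μ : Measure Ω) (g : Ω → ℝ≥0∞) (hg : Measurable g) (C : ℝ≥0∞)
    (hint : ∫⁻ t, g t ∂μ ≤ C) (J : ℕ) :
    ∑ j ∈ range J, 2^j * μ {t | 2^j < g t} ≤ 2 * C := by
  have h1 : ∀ j, 2^j * μ {t | 2^j < g t} =
      ∫⁻ t, Set.indicator {y : ℝ≥0∞ | 2^j < y} (fun _ => (2:ℝ≥0∞)^j) (g t) ∂μ := by
    intro j
    have hm : MeasurableSet {t | 2^j < g t} := measurableSet_lt measurable_const hg
    rw [← lintegral_indicator_const hm]
    rfl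
  simp only [h1]
  rw [← lintegral_finsetSum]
  · calc ∫⁻ t, ∑ j ∈ range J, Set.indicator {y : ℝ≥0∞ | 2^j < y} (fun _ => (2:ℝ≥0∞)^j) (g t) ∂μ
        ≤ ∫⁻ t, 2 * g t ∂μ := lintegral_mono (fun t => dyadic_sum_le _ _)
      _ = 2 * ∫⁻ t, g t ∂μ := lintegral_const_mul _ hg
      _ ≤ 2 * C := by gcongr
  · intro j _
    have : Measurable (Set.indicator {y : ℝ≥0∞ | 2^j < y} (fun _ => (2:ℝ≥0∞)^j)) :=
      measurable_const.indicator (measurableSet_lt measurable_const measurable_id)
    exact this.comp hg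

theorem lemmaA (μ : Measure Ω) [IsFiniteMeasure μ]
    (g : ℕ → Ω → ℝ≥0∞) (hg : ∀ n, Measurable (g n)) (C : ℝ≥0∞) (hC : C ≠ ∞)
    (hint : ∀ n, ∫⁻ t, g n t ∂μ ≤ C) :
    ∃ σ : ℕ → ℕ, StrictMono σ ∧ ∀ c : ℕ → ℝ, (∀ k, 0 ≤ c k) → WeakL1 c →
      ∀ᵐ t ∂μ, Tendsto (fun k => ENNReal.ofReal (c k) * g (σ k) t) atTop (𝓝 0) := by
  -- a subsequence with convergent distribution functions
  let D : ℕ → ℕ → ℝ≥0∞ := fun n j => μ {t | 2^j < g n t}
  obtain ⟨ψ, φ, hφ, hlim⟩ := SeqCompactSpace.tendsto_subseq D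
  have hlimj : ∀ j, Tendsto (fun k => D (φ k) j) atTop (𝓝 (ψ j)) := fun j =>
    ((continuous_apply j).tendsto ψ).comp hlim
  have hsumψ : ∀ J, ∑ j ∈ range J, 2^j * ψ j ≤ 2 * C := by
    intro J
    have h1 : Tendsto (fun k => ∑ j ∈ range J, 2^j * D (φ k) j) atTop
        (𝓝 (∑ j ∈ range J, 2^j * ψ j)) := by
      apply tendsto_finsetSum
      intro j _
      apply ENNReal.Tendsto.const_mul (hlimj j)
      right
      exact ENNReal.pow_ne_top ENNReal.ofNat_ne_top
    exact le_of_tendsto' h1 (fun k => markov_sum μ (g (φ k)) (hg _) C (hint _) J)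
  have hψtsum : ∑' j, 2^j * ψ j ≤ 2 * C := ENNReal.tsum_le_of_sum_range_le hsumψ
  have h2C : 2 * C ≠ ∞ := ENNReal.mul_ne_top ENNReal.ofNat_ne_top hC
  have hψle : ∀ j, 2^j * ψ j ≤ 2 * C := fun j => (ENNReal.le_tsum j).trans hψtsum
  have hψle' : ∀ j, ψ j ≤ 2 * C * (2⁻¹)^j := by
    intro j
    have h1 : ψ j = (2^j * ψ j) * (2⁻¹)^j := by
      rw [mul_assoc, mul_comm (ψ j), ← mul_assoc, ← mul_pow,
        ENNReal.mul_inv_cancel (by norm_num) (by norm_num), one_pow, one_mul]
    rw [h1]
    exact mul_le_mul_left (hψle j) _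
  have hpow : ∀ k : ℕ, (2⁻¹:ℝ≥0∞)^k ≠ ∞ := by
    intro k
    exact ENNReal.pow_ne_top (by norm_num)
  have hpow0 : ∀ k : ℕ, (2⁻¹:ℝ≥0∞)^k ≠ 0 := by
    intro k
    exact pow_ne_zero _ (by norm_num)
  have hψfin : ∀ j, ψ j ≠ ∞ := fun j =>
    ne_top_of_le_ne_top (ENNReal.mul_ne_top h2C (hpow j)) (hψle' j)
  -- choose a further subsequence
  have hev : ∀ k : ℕ, ∀ᶠ n in atTop, ∀ j ∈ range (k+1), D (φ n) j ≤ ψ j + (2⁻¹)^k := by
    intro k
    rw [Filter.eventually_all_finset]
    intro j _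
    have : ψ j < ψ j + (2⁻¹)^k := ENNReal.lt_add_right (hψfin j) (hpow0 k)
    exact ((hlimj j).eventually_lt_const this).mono (fun _ h => h.le)
  obtain ⟨τ, hτ, hτP⟩ := extraction_forall_of_eventually hev
  have hbound : ∀ k j, D (φ (τ k)) j ≤ ψ j + (2 * C + 1) * (2⁻¹)^k := by
    intro k j
    by_cases hjk : j ≤ k
    · refine (hτP k j (Finset.mem_range.mpr (by omega))).trans ?_
      gcongr
      calc (2⁻¹:ℝ≥0∞)^k = 1 * (2⁻¹)^k := by rw [one_mul]
        _ ≤ (2 * C + 1) * (2⁻¹)^k := by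
          gcongr
          exact le_add_self
    · push Not at hjk
      calc D (φ (τ k)) j ≤ D (φ (τ k)) k := by
            apply measure_mono
            intro t ht
            have h1 : (2:ℝ≥0∞)^k ≤ 2^j := pow_le_pow_right₀ (by norm_num) hjk.le
            exact lt_of_le_of_lt h1 ht
        _ ≤ ψ k + (2⁻¹)^k := hτP k k (Finset.mem_range.mpr (by omega))
        _ ≤ 2 * C * (2⁻¹)^k + (2⁻¹)^k := by
            gcongr
            exact hψle' k
        _ = (2 * C + 1) * (2⁻¹)^k := by ring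
        _ ≤ ψ j + (2 * C + 1) * (2⁻¹)^k := le_add_self
  refine ⟨fun k => φ (τ k), hφ.comp hτ, ?_⟩
  intro c hc0 hc
  obtain ⟨B, hB⟩ := hc
  -- Borel-Cantelli for each ε
  have key : ∀ ε : ℝ, 0 < ε → ∀ᵐ t ∂μ, ∀ᶠ k in atTop,
      ENNReal.ofReal (c k) * g (φ (τ k)) t ≤ ENNReal.ofReal ε := by
    intro ε hε
    let S : ℕ → Set Ω := fun k => {t | ENNReal.ofReal ε < ENNReal.ofReal (c k) * g (φ (τ k)) t}
    have hS : ∀ k, μ (S k) ≤ Set.indicator {k | ε < c k} (fun _ => (1:ℝ≥0∞)) k * μ Set.univ +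
        (2 * C + 1) * (2⁻¹)^k +
        ∑' j, Set.indicator {k | ε / 2^(j+1) < c k} (fun _ => (1:ℝ≥0∞)) k * ψ j := by
      intro k
      by_cases h1 : ε < c k
      · rw [Set.indicator_of_mem (by exact h1), one_mul]
        calc μ (S k) ≤ μ Set.univ := measure_mono (Set.subset_univ _)
          _ ≤ _ := by
            rw [add_assoc]
            exact le_self_add
      · rcases (hc0 k).eq_or_lt with h0 | h0
        · have : S k = ∅ := by
            ext t
            simp [S, ← h0]
          rw [this]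
          simp
        · have h2 : 1 ≤ ε / c k := by
            rw [le_div_iff₀ h0, one_mul]
            exact not_lt.mp h1
          obtain ⟨j, hj1, hj2⟩ := exists_nat_pow_near h2 (by norm_num : (1:ℝ) < 2)
          have h3 : μ (S k) ≤ D (φ (τ k)) j := by
            apply measure_mono
            intro t ht
            have ht' : ENNReal.ofReal ε < ENNReal.ofReal (c k) * g (φ (τ k)) t := ht
            change (2:ℝ≥0∞)^j < g (φ (τ k)) t
            by_contra hcon
            push Not at hcon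
            have h4 : ENNReal.ofReal (c k) * g (φ (τ k)) t ≤ ENNReal.ofReal ε := by
              calc ENNReal.ofReal (c k) * g (φ (τ k)) t ≤ ENNReal.ofReal (c k) * 2^j := by gcongr
                _ = ENNReal.ofReal (c k * 2^j) := by
                  rw [ENNReal.ofReal_mul (hc0 k), ENNReal.ofReal_pow (by norm_num),
                    ENNReal.ofReal_ofNat]
                _ ≤ ENNReal.ofReal ε := by
                  apply ENNReal.ofReal_le_ofReal
                  rw [le_div_iff₀ h0] at hj1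
                  linarith
            exact absurd ht' (not_lt.mpr h4)
          have h5 : ε / 2^(j+1) < c k := by
            rw [div_lt_iff₀ h0] at hj2
            rw [div_lt_iff₀ (by positivity)]
            linarith
          have h6 : ψ j ≤ ∑' j, Set.indicator {k | ε / 2^(j+1) < c k} (fun _ => (1:ℝ≥0∞)) k * ψ j := by
            calc ψ j = Set.indicator {k | ε / 2^(j+1) < c k} (fun _ => (1:ℝ≥0∞)) k * ψ j := by
                  rw [Set.indicator_of_mem (by exact h5), one_mul]
              _ ≤ _ := ENNReal.le_tsum j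
          calc μ (S k) ≤ D (φ (τ k)) j := h3
            _ ≤ ψ j + (2 * C + 1) * (2⁻¹)^k := hbound k j
            _ ≤ (∑' j, Set.indicator {k | ε / 2^(j+1) < c k} (fun _ => (1:ℝ≥0∞)) k * ψ j) +
                (2 * C + 1) * (2⁻¹)^k := by gcongr
            _ ≤ _ := by
              rw [add_comm, add_assoc]
              exact le_add_self
    have hsum : ∑' k, μ (S k) ≠ ∞ := by
      have h1 : ∑' k, μ (S k) ≤
          ENNReal.ofReal (B / ε + 1) * μ Set.univ + (2 * C + 1) * 2 +
          ENNReal.ofReal (2 * |B| / ε + 1) * (2 * C) := by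
        calc ∑' k, μ (S k) ≤ ∑' k, (Set.indicator {k | ε < c k} (fun _ => (1:ℝ≥0∞)) k * μ Set.univ +
              (2 * C + 1) * (2⁻¹)^k +
              ∑' j, Set.indicator {k | ε / 2^(j+1) < c k} (fun _ => (1:ℝ≥0∞)) k * ψ j) :=
              ENNReal.tsum_le_tsum hS
          _ = (∑' k, Set.indicator {k | ε < c k} (fun _ => (1:ℝ≥0∞)) k) * μ Set.univ +
              (2 * C + 1) * (∑' k : ℕ, (2⁻¹)^k) +
              ∑' k, ∑' j, Set.indicator {k | ε / 2^(j+1) < c k} (fun _ => (1:ℝ≥0∞)) k * ψ j := by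
              rw [ENNReal.tsum_add, ENNReal.tsum_add, ENNReal.tsum_mul_right,
                ENNReal.tsum_mul_left]
          _ ≤ _ := by
              gcongr
              · exact WeakL1.tsum_le hB hε
              · exact (ENNReal.tsum_geometric_two).le
              · rw [ENNReal.tsum_comm]
                calc ∑' j, ∑' k, Set.indicator {k | ε / 2^(j+1) < c k} (fun _ => (1:ℝ≥0∞)) k * ψ j
                    ≤ ∑' j, ENNReal.ofReal (2 * |B| / ε + 1) * (2^j * ψ j) := by
                      apply ENNReal.tsum_le_tsum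
                      intro j
                      rw [ENNReal.tsum_mul_right, ← mul_assoc]
                      gcongr
                      have hδ : 0 < ε / 2^(j+1) := by positivity
                      refine (WeakL1.tsum_le hB hδ).trans ?_
                      have h7 : (2:ℝ≥0∞)^j = ENNReal.ofReal (2^j) := by
                        rw [ENNReal.ofReal_pow (by norm_num), ENNReal.ofReal_ofNat]
                      rw [h7, ← ENNReal.ofReal_mul (by positivity)]
                      apply ENNReal.ofReal_le_ofReal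
                      have h8 : B / (ε / 2^(j+1)) = (2 * B / ε) * 2^j := by
                        field_simp
                        ring
                      rw [h8]
                      have h9 : 2 * B / ε ≤ 2 * |B| / ε := by
                        gcongr
                        exact le_abs_self B
                      have h10 : (1:ℝ) ≤ 2^j := one_le_pow₀ (by norm_num)
                      nlinarith
                  _ = ENNReal.ofReal (2 * |B| / ε + 1) * ∑' j, (2^j * ψ j) :=
                      ENNReal.tsum_mul_left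
                  _ ≤ ENNReal.ofReal (2 * |B| / ε + 1) * (2 * C) := by gcongr
      refine ne_top_of_le_ne_top ?_ h1
      refine ENNReal.add_ne_top.mpr ⟨ENNReal.add_ne_top.mpr ⟨?_, ?_⟩, ?_⟩
      · exact ENNReal.mul_ne_top ENNReal.ofReal_ne_top (measure_ne_top μ _)
      · exact ENNReal.mul_ne_top (ENNReal.add_ne_top.mpr ⟨h2C, ENNReal.one_ne_top⟩)
          ENNReal.ofNat_ne_top
      · exact ENNReal.mul_ne_top ENNReal.ofReal_ne_top h2C
    have := ae_eventually_notMem hsum
    filter_upwards [this] with t ht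
    filter_upwards [ht] with k hk
    exact not_lt.mp hk
  have key2 : ∀ᵐ t ∂μ, ∀ m : ℕ, ∀ᶠ k in atTop,
      ENNReal.ofReal (c k) * g (φ (τ k)) t ≤ ENNReal.ofReal (1 / (m + 1)) := by
    rw [ae_all_iff]
    intro m
    exact key _ (by positivity)
  filter_upwards [key2] with t ht
  rw [ENNReal.tendsto_nhds_zero]
  intro ε hε
  obtain ⟨m, hm⟩ : ∃ m : ℕ, ENNReal.ofReal (1 / (m + 1)) ≤ ε := by
    have h1 : Tendsto (fun m : ℕ => ENNReal.ofReal (1 / ((m:ℝ) + 1))) atTop (𝓝 0) := by
      have := (ENNReal.continuous_ofReal.tendsto 0).comp tendsto_one_div_add_atTop_nhds_zero_nat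
      rw [ENNReal.ofReal_zero] at this
      exact this
    exact (h1.eventually_le_const hε).exists
  filter_upwards [ht m] with k hk
  exact hk.trans hm

end Pool.Agent.Helper72.D1
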