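import Mathlib
import Pool.Agent.Helper72.Tsirelson
import Pool.Agent.Helper72.WeakL1

set_option autoImplicit false

/-!
# The dual of Tsirelson's space (i.e. Tsirelson's original space) has property `(D_1)`
-/

namespace Pool.Agent.Helper72.D1

open MeasureTheory Filter Topology Finset
open scoped ENNReal
open Pool.Agent.Helper72.Tsirelson

variable {Ω : Type*} [MeasurableSpace Ω]

theorem exists_block_small (μ : Measure Ω) (f : ℕ → Ω → StrongDual ℝ TT)
    (hmeas : ∀ y : TT, TendstoInMeasure μ (fun n t => f n t y) atTop (fun _ => (0:ℝ)))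
    (p N : ℕ) (ε : ℝ) (hε : 0 < ε) (η : ℝ≥0∞) (hη : 0 < η) :
    ∃ n, N < n ∧ μ {t | ε ≤ ∑ j ∈ range p, |f n t (vec j)|} ≤ η := by
  have hpos : (0:ℝ) < ε / (p + 1) := by positivity
  have h1 : ∀ j, Tendsto (fun n => μ {t | ε / (p + 1) ≤ |f n t (vec j)|}) atTop (𝓝 0) := by
    intro j
    have := (tendstoInMeasure_iff_norm.mp (hmeas (vec j))) _ hpos
    simpa [Real.norm_eq_abs] using this
  have h2 : Tendsto (fun n => ∑ j ∈ range p, μ {t | ε / (p + 1) ≤ |f n t (vec j)|}) atTop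
      (𝓝 0) := by
    have : (0:ℝ≥0∞) = ∑ j ∈ range p, 0 := by simp
    rw [this]
    exact tendsto_finsetSum _ (fun j _ => h1 j)
  obtain ⟨n, hn1, hn2⟩ := ((h2.eventually_le_const hη).and (eventually_gt_atTop N)).exists
  refine ⟨n, hn2, le_trans ?_ hn1⟩
  refine le_trans (measure_mono ?_) (measure_biUnion_finset_le (range p) _)
  intro t ht
  have ht' : ε ≤ ∑ j ∈ range p, |f n t (vec j)| := ht
  by_contra hcon
  simp only [Set.mem_iUnion, not_exists, Set.mem_ofPred_eq, not_le] at hcon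
  have h3 : ∑ j ∈ range p, |f n t (vec j)| ≤ ∑ j ∈ range p, (ε / (p + 1)) :=
    Finset.sum_le_sum (fun j hj => (hcon j hj).le)
  rw [Finset.sum_const, card_range, nsmul_eq_mul] at h3
  have h4 : (p:ℝ) * (ε / (p + 1)) < ε := by
    rw [mul_div_assoc', div_lt_iff₀ (by positivity)]
    nlinarith
  linarith

theorem exists_tail_small (μ : Measure Ω) [IsFiniteMeasure μ] (f : Ω → StrongDual ℝ TT)
    (hf : StronglyMeasurable f) (P : ℕ) (ε : ℝ) (hε : 0 < ε) (η : ℝ≥0∞) (hη : 0 < η) :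
    ∃ q, P < q ∧ μ {t | ε ≤ ‖(f t).comp (PP (Set.Ici q))‖} ≤ η := by
  have h1 : TendstoInMeasure μ (fun q t => ‖(f t).comp (PP (Set.Ici q))‖) atTop
      (fun _ => (0:ℝ)) := by
    apply tendstoInMeasure_of_tendsto_ae
    · intro q
      have hc : Continuous (fun x : StrongDual ℝ TT => ‖x.comp (PP (Set.Ici q))‖) := by
        have : Continuous (fun x : StrongDual ℝ TT => x.comp (PP (Set.Ici q))) :=
          continuous_id.clm_comp continuous_const
        exact this.norm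
      exact (hc.comp_stronglyMeasurable hf).aestronglyMeasurable
    · exact Eventually.of_forall (fun t => tendsto_comp_PP_Ici (f t))
  have h2 := (tendstoInMeasure_iff_norm.mp h1) ε hε
  simp only [sub_zero, norm_norm] at h2
  obtain ⟨q, hq1, hq2⟩ := ((h2.eventually_le_const hη).and (eventually_gt_atTop P)).exists
  exact ⟨q, hq2, hq1⟩

theorem D1_dual_Tsirelson (μ : Measure Ω) [IsFiniteMeasure μ] (f : ℕ → Ω → StrongDual ℝ TT)
    (hf : ∀ n, StronglyMeasurable (f n)) (C : ℝ≥0∞) (hC : C ≠ ∞)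
    (hint : ∀ n, ∫⁻ t, ‖f n t‖ₑ ∂μ ≤ C)
    (hmeas : ∀ y : TT, TendstoInMeasure μ (fun n t => f n t y) atTop (fun _ => (0:ℝ))) :
    ∃ g : ℕ → ℕ, StrictMono g ∧ ∀ y : TT, ∀ᵐ t ∂μ,
      Tendsto (fun k => f (g k) t y) atTop (𝓝 0) := by
  have hη : ∀ k : ℕ, (0:ℝ≥0∞) < (2⁻¹)^k := fun k => by
    apply pos_iff_ne_zero.mpr
    exact pow_ne_zero _ (by norm_num)
  have hε : ∀ k : ℕ, (0:ℝ) < (1/2)^k := fun k => by positivity
  -- transitions: from (k, (n, p)) to the next pair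
  choose nf hnf1 hnf2 using fun (k p N : ℕ) =>
    exists_block_small μ f hmeas p N _ (hε k) _ (hη k)
  choose qf hqf1 hqf2 using fun (k n P : ℕ) =>
    exists_tail_small μ (f n) (hf n) P _ (hε k) _ (hη k)
  -- the recursive construction
  let step : ℕ → ℕ × ℕ → ℕ × ℕ := fun k s => (nf (k+1) (qf k s.1 s.2) s.1, qf k s.1 s.2)
  let st : ℕ → ℕ × ℕ := fun k => Nat.rec (nf 0 0 0, 0) step k
  have hst0 : st 0 = (nf 0 0 0, 0) := rfl
  have hst : ∀ k, st (k+1) = step k (st k) := fun k => rfl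
  let n : ℕ → ℕ := fun k => (st k).1
  let p : ℕ → ℕ := fun k => (st k).2
  have hp : ∀ k, p (k+1) = qf k (n k) (p k) := fun k => rfl
  have hn : ∀ k, n (k+1) = nf (k+1) (p (k+1)) (n k) := fun k => rfl
  have hpmono : StrictMono p := strictMono_nat_of_lt_succ (fun k => by rw [hp]; exact hqf1 _ _ _)
  have hnmono : StrictMono n := strictMono_nat_of_lt_succ (fun k => by rw [hn]; exact hnf1 _ _ _)
  have hU : ∀ k, μ {t | (1/2:ℝ)^k ≤ ∑ j ∈ range (p k), |f (n k) t (vec j)|} ≤ (2⁻¹)^k := by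
    intro k
    cases k with
    | zero => exact hnf2 0 0 0
    | succ k =>
      have := hnf2 (k+1) (p (k+1)) (n k)
      rw [← hn] at this
      exact this
  have hV : ∀ k, μ {t | (1/2:ℝ)^k ≤ ‖(f (n k) t).comp (PP (Set.Ici (p (k+1))))‖} ≤ (2⁻¹)^k := by
    intro k
    rw [hp]
    exact hqf2 k (n k) (p k)
  have hgeom : ∑' k : ℕ, (2⁻¹:ℝ≥0∞)^k ≠ ∞ := by
    rw [ENNReal.tsum_geometric_two]
    exact ENNReal.ofNat_ne_top
  have hU' : ∀ᵐ t ∂μ, ∀ᶠ k in atTop, ∑ j ∈ range (p k), |f (n k) t (vec j)| < (1/2)^k := by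
    have := ae_eventually_notMem
      (ne_top_of_le_ne_top hgeom (ENNReal.tsum_le_tsum hU))
    filter_upwards [this] with t ht
    filter_upwards [ht] with k hk
    exact not_le.mp hk
  have hV' : ∀ᵐ t ∂μ, ∀ᶠ k in atTop, ‖(f (n k) t).comp (PP (Set.Ici (p (k+1))))‖ < (1/2)^k := by
    have := ae_eventually_notMem
      (ne_top_of_le_ne_top hgeom (ENNReal.tsum_le_tsum hV))
    filter_upwards [this] with t ht
    filter_upwards [ht] with k hk
    exact not_le.mp hk
  have hhalf : Tendsto (fun k : ℕ => (1/2:ℝ)^k) atTop (𝓝 0) :=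
    tendsto_pow_atTop_nhds_zero_of_lt_one (by norm_num) (by norm_num)
  -- the second subsequence
  obtain ⟨σ, hσ, hσP⟩ := lemmaA μ (fun k t => ‖f (n k) t‖ₑ) (fun k => (hf (n k)).enorm) C hC
    (fun k => hint (n k))
  refine ⟨fun k => n (σ k), hnmono.comp hσ, ?_⟩
  intro y
  let c : ℕ → ℝ := fun i => ‖PP (Set.Ico (p i) (p (i+1))) y‖
  have hc : WeakL1 c := ⟨4 * ‖y‖, fun δ hδ s hs => weak_l1 p hpmono y δ hδ s hs⟩
  have hcσ := hσP (fun k => c (σ k)) (fun k => norm_nonneg _) (hc.comp hσ.injective)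
  filter_upwards [hcσ, hU', hV'] with t h1 h2 h3
  have h2' : Tendsto (fun k => ∑ j ∈ range (p k), |f (n k) t (vec j)|) atTop (𝓝 0) :=
    tendsto_of_tendsto_of_tendsto_of_le_of_le' tendsto_const_nhds hhalf
      (Eventually.of_forall (fun k => Finset.sum_nonneg (fun _ _ => abs_nonneg _)))
      (h2.mono (fun _ h => h.le))
  have h3' : Tendsto (fun k => ‖(f (n k) t).comp (PP (Set.Ici (p (k+1))))‖) atTop (𝓝 0) :=
    tendsto_of_tendsto_of_tendsto_of_le_of_le' tendsto_const_nhds hhalf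
      (Eventually.of_forall (fun k => norm_nonneg ((f (n k) t).comp (PP (Set.Ici (p (k+1)))))))
      (h3.mono (fun _ h => h.le))
  have h1' : Tendsto (fun k => c (σ k) * ‖f (n (σ k)) t‖) atTop (𝓝 0) := by
    have h4 := (ENNReal.tendsto_toReal ENNReal.zero_ne_top).comp h1
    rw [ENNReal.toReal_zero] at h4
    refine h4.congr (fun k => ?_)
    simp only [Function.comp_apply, ENNReal.toReal_mul]
    rw [ENNReal.toReal_ofReal (norm_nonneg _), toReal_enorm]
  have hb : Tendsto (fun k => ‖y‖ * (∑ j ∈ range (p (σ k)), |f (n (σ k)) t (vec j)|) +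
      c (σ k) * ‖f (n (σ k)) t‖ +
      ‖(f (n (σ k)) t).comp (PP (Set.Ici (p (σ k + 1))))‖ * ‖y‖) atTop (𝓝 0) := by
    have e1 := (h2'.comp hσ.tendsto_atTop).const_mul ‖y‖
    have e2 := (h3'.comp hσ.tendsto_atTop).mul_const ‖y‖
    have e3 := (e1.add h1').add e2
    simpa using e3
  refine squeeze_zero_norm (fun k => ?_) hb
  -- the pointwise estimate
  set P := p (σ k) with hP
  set Q := p (σ k + 1) with hQ
  set x := f (n (σ k)) t with hx
  have hPQ : P ≤ Q := hpmono.monotone (Nat.le_succ _)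
  have hdec : x y = x (PP (Set.Iio P) y) + x (PP (Set.Ico P Q) y) + x (PP (Set.Ici Q) y) := by
    have a1 := PP_add_compl (Set.Iio Q) y
    have a2 := PP_add_compl (Set.Iio P) (PP (Set.Iio Q) y)
    rw [Set.compl_Iio] at a1 a2
    rw [PP_PP, PP_PP, Set.inter_eq_left.mpr (Set.Iio_subset_Iio hPQ)] at a2
    have a3 : Set.Ici P ∩ Set.Iio Q = Set.Ico P Q := rfl
    rw [a3] at a2
    rw [← map_add, a2, ← map_add, a1]
  have b1 : |x (PP (Set.Iio P) y)| ≤ ‖y‖ * ∑ j ∈ range P, |x (vec j)| := by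
    rw [PP_Iio, map_sum, Finset.mul_sum]
    refine (Finset.abs_sum_le_sum_abs _ _).trans (Finset.sum_le_sum (fun j _ => ?_))
    rw [map_smul, smul_eq_mul, abs_mul]
    gcongr
    have := (coord j).le_opNorm y
    have h5 := norm_coord_le j
    rw [Real.norm_eq_abs] at this
    nlinarith [norm_nonneg y]
  have b2 : |x (PP (Set.Ico P Q) y)| ≤ c (σ k) * ‖x‖ := by
    have := x.le_opNorm (PP (Set.Ico P Q) y)
    rw [Real.norm_eq_abs] at this
    rw [mul_comm]
    exact this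
  have b3 : |x (PP (Set.Ici Q) y)| ≤ ‖x.comp (PP (Set.Ici Q))‖ * ‖y‖ := by
    have := (x.comp (PP (Set.Ici Q))).le_opNorm y
    rw [Real.norm_eq_abs] at this
    exact this
  rw [Real.norm_eq_abs, hdec]
  refine (abs_add_le _ _).trans ?_
  refine add_le_add ((abs_add_le _ _).trans ?_) b3
  exact add_le_add b1 b2

end Pool.Agent.Helper72.D1
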