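import Pool.Agent.Helper72.KreissReal

/-!
From a positive operator on complex `L^p` whose resolvent at `2` is power bounded (and with
spectrum in the closed unit disc) to its real part, and back.
-/

open MeasureTheory Finset Filter Topology
open scoped ENNReal NNReal ComplexOrder

namespace Helper72.Kreiss

variable {S : Type*} [MeasurableSpace S] {μ : Measure S} {p : ℝ≥0∞} [Fact (1 ≤ p)]

/-! ### Powers and the spectral radius -/

section Spectral

variable {A : Type*} [NormedRing A] [NormedAlgebra ℂ A] [CompleteSpace A]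

lemma tendsto_pow_div (T : A) (h : spectrum ℂ T ⊆ Metric.closedBall 0 1) :
    Tendsto (fun n : ℕ => ‖T ^ n‖ / 2 ^ n) atTop (𝓝 0) := by
  have hr : spectralRadius ℂ T ≤ 1 := by
    unfold spectralRadius
    refine iSup₂_le fun k hk => ?_
    have := h hk
    rw [mem_closedBall_zero_iff] at this
    exact_mod_cast this
  have hg := spectrum.pow_norm_pow_one_div_tendsto_nhds_spectralRadius T
  have hlt : spectralRadius ℂ T < ENNReal.ofReal (3 / 2) := by
    refine lt_of_le_of_lt hr ?_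
    rw [← ENNReal.ofReal_one]
    exact (ENNReal.ofReal_lt_ofReal_iff (by norm_num)).mpr (by norm_num)
  have hev := hg.eventually_lt_const hlt
  have hev2 : ∀ᶠ n : ℕ in atTop, ‖T ^ n‖ / 2 ^ n ≤ (3 / 4) ^ n := by
    filter_upwards [hev, eventually_gt_atTop 0] with n hn hn0
    have h1 : ‖T ^ n‖ ^ (1 / n : ℝ) < 3 / 2 := (ENNReal.ofReal_lt_ofReal_iff (by norm_num)).mp hn
    have hnr : (0 : ℝ) < n := by exact_mod_cast hn0
    have h2 : ‖T ^ n‖ ≤ (3 / 2) ^ n := by
      calc ‖T ^ n‖ = (‖T ^ n‖ ^ (1 / n : ℝ)) ^ n := by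
            rw [← Real.rpow_natCast, ← Real.rpow_mul (norm_nonneg _), one_div_mul_cancel hnr.ne',
              Real.rpow_one]
        _ ≤ (3 / 2) ^ n := pow_le_pow_left₀ (Real.rpow_nonneg (norm_nonneg _) _) h1.le n
    calc ‖T ^ n‖ / 2 ^ n ≤ (3 / 2) ^ n / 2 ^ n := by gcongr
      _ = (3 / 4) ^ n := by rw [← div_pow]; norm_num
  refine squeeze_zero' (Eventually.of_forall fun n => by positivity) hev2 ?_
  exact tendsto_pow_atTop_nhds_zero_of_lt_one (by norm_num) (by norm_num)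

/-- Partial sums of the Neumann series at `2`. -/
noncomputable def neu (T : A) (L : ℕ) : A := ∑ l ∈ range L, ((1 : ℂ) / 2 ^ (l + 1)) • T ^ l

lemma neu_mul (T : A) (L : ℕ) :
    (algebraMap ℂ A 2 - T) * neu T L = 1 - ((1 : ℂ) / 2 ^ L) • T ^ L := by
  induction L with
  | zero => simp [neu]
  | succ L ih =>
    have e : neu T (L + 1) = neu T L + ((1 : ℂ) / 2 ^ (L + 1)) • T ^ L := by
      rw [neu, Finset.sum_range_succ, ← neu]
    rw [e, mul_add, ih, sub_mul, mul_smul_comm, mul_smul_comm, ← Algebra.smul_def, smul_smul,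
      ← pow_succ']
    have e2 : (1 : ℂ) / 2 ^ (L + 1) * 2 = 1 / 2 ^ L := by
      rw [pow_succ]; field_simp
    rw [e2]
    abel

lemma resolvent_eq (T : A) (h : spectrum ℂ T ⊆ Metric.closedBall 0 1) :
    (algebraMap ℂ A 2 - T) * resolvent T (2 : ℂ) = 1 ∧
    resolvent T (2 : ℂ) * (algebraMap ℂ A 2 - T) = 1 := by
  have hu : IsUnit (algebraMap ℂ A 2 - T) := by
    by_contra hcon
    have h2 : (2 : ℂ) ∈ spectrum ℂ T := spectrum.mem_iff.mpr hcon
    have := h h2
    rw [mem_closedBall_zero_iff] at this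
    norm_num at this
  exact ⟨Ring.mul_inverse_cancel _ hu, Ring.inverse_mul_cancel _ hu⟩

lemma neu_tendsto (T : A) (h : spectrum ℂ T ⊆ Metric.closedBall 0 1) :
    Tendsto (fun L => neu T L) atTop (𝓝 (resolvent T (2 : ℂ))) := by
  obtain ⟨h1, h2⟩ := resolvent_eq T h
  set R := resolvent T (2 : ℂ) with hR
  have e : ∀ L, neu T L = R - ((1 : ℂ) / 2 ^ L) • (R * T ^ L) := by
    intro L
    have := congrArg (fun x => R * x) (neu_mul T L)
    simp only [← mul_assoc, h2, one_mul, mul_sub, mul_one, mul_smul_comm] at this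
    exact this
  have hz : Tendsto (fun L => ((1 : ℂ) / 2 ^ L) • (R * T ^ L)) atTop (𝓝 0) := by
    apply squeeze_zero_norm (a := fun L : ℕ => ‖R‖ * (‖T ^ L‖ / 2 ^ L))
    · intro L
      rw [norm_smul, norm_div, norm_one, norm_pow, Complex.norm_two]
      calc 1 / 2 ^ L * ‖R * T ^ L‖ ≤ 1 / 2 ^ L * (‖R‖ * ‖T ^ L‖) := by
            gcongr; exact norm_mul_le _ _
        _ = _ := by ring
    · simpa using (tendsto_pow_div T h).const_mul ‖R‖
  simp_rw [e]
  simpa using (tendsto_const_nhds (x := R)).sub hz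

end Spectral

/-! ### Real and complex `L^p` -/

/-- The inclusion of real into complex `L^p`. -/
noncomputable def inc : Lp ℝ p μ →L[ℝ] Lp ℂ p μ := Complex.ofRealCLM.compLpL p μ

/-- The real part. -/
noncomputable def rp : Lp ℂ p μ →L[ℝ] Lp ℝ p μ := Complex.reCLM.compLpL p μ

/-- The imaginary part. -/
noncomputable def ip : Lp ℂ p μ →L[ℝ] Lp ℝ p μ := Complex.imCLM.compLpL p μ

lemma inc_ae (f : Lp ℝ p μ) : ∀ᵐ s ∂μ, inc f s = (f s : ℂ) := by
  filter_upwards [Complex.ofRealCLM.coeFn_compLpL f] with s hs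
  rw [inc, hs]; rfl

lemma rp_ae (f : Lp ℂ p μ) : ∀ᵐ s ∂μ, rp f s = (f s).re := by
  filter_upwards [Complex.reCLM.coeFn_compLpL f] with s hs
  rw [rp, hs]; rfl

lemma ip_ae (f : Lp ℂ p μ) : ∀ᵐ s ∂μ, ip f s = (f s).im := by
  filter_upwards [Complex.imCLM.coeFn_compLpL f] with s hs
  rw [ip, hs]; rfl

lemma rp_inc (f : Lp ℝ p μ) : rp (inc f) = f := by
  apply Lp.ext
  filter_upwards [rp_ae (inc f), inc_ae f] with s h1 h2
  rw [h1, h2, Complex.ofReal_re]

lemma norm_inc (f : Lp ℝ p μ) : ‖inc f‖ = ‖f‖ := by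
  rw [Lp.norm_def, Lp.norm_def]
  congr 1
  apply eLpNorm_congr_norm_ae
  filter_upwards [inc_ae f] with s hs
  rw [hs, Complex.norm_real]

lemma norm_rp_le (f : Lp ℂ p μ) : ‖rp f‖ ≤ ‖f‖ := by
  apply Lp.norm_le_norm_of_ae_le
  filter_upwards [rp_ae f] with s hs
  rw [hs]
  exact Complex.abs_re_le_norm _

lemma norm_ip_le (f : Lp ℂ p μ) : ‖ip f‖ ≤ ‖f‖ := by
  apply Lp.norm_le_norm_of_ae_le
  filter_upwards [ip_ae f] with s hs
  rw [hs]
  exact Complex.abs_im_le_norm _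

lemma decomp (f : Lp ℂ p μ) : f = inc (rp f) + Complex.I • inc (ip f) := by
  apply Lp.ext
  filter_upwards [rp_ae f, ip_ae f, inc_ae (rp f), inc_ae (ip f),
    Lp.coeFn_add (inc (rp f)) (Complex.I • inc (ip f)), Lp.coeFn_smul Complex.I (inc (ip f))]
    with s h1 h2 h3 h4 h5 h6
  rw [h5, Pi.add_apply, h6, Pi.smul_apply, h3, h4, h1, h2, smul_eq_mul, mul_comm]
  exact (Complex.re_add_im _).symm

/-- The real part of an operator. -/
noncomputable def realPart (T : Lp ℂ p μ →L[ℂ] Lp ℂ p μ) : Lp ℝ p μ →L[ℝ] Lp ℝ p μ :=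
  rp.comp ((T.restrictScalars ℝ).comp inc)

lemma realPart_apply (T : Lp ℂ p μ →L[ℂ] Lp ℂ p μ) (f : Lp ℝ p μ) :
    realPart T f = rp (T (inc f)) := rfl

lemma inc_nonneg_ae {f : Lp ℝ p μ} (hf : 0 ≤ f) : ∀ᵐ s ∂μ, 0 ≤ inc f s := by
  filter_upwards [inc_ae f, (Lp.coeFn_nonneg f).mpr hf] with s h1 h2
  rw [h1]
  exact Complex.zero_le_real.mpr h2

lemma of_nonneg_ae {g : Lp ℂ p μ} (hg : ∀ᵐ s ∂μ, 0 ≤ g s) : 0 ≤ rp g ∧ inc (rp g) = g := by
  constructor
  · rw [← Lp.coeFn_nonneg]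
    filter_upwards [rp_ae g, hg] with s h1 h2
    rw [h1]
    exact (Complex.nonneg_iff.mp h2).1
  · apply Lp.ext
    filter_upwards [inc_ae (rp g), rp_ae g, hg] with s h1 h2 h3
    rw [h1, h2]
    apply Complex.ext
    · simp
    · simp only [Complex.ofReal_im]
      exact (Complex.nonneg_iff.mp h3).2

section Positive

variable {T : Lp ℂ p μ →L[ℂ] Lp ℂ p μ}
  (hT : ∀ f : Lp ℂ p μ, (∀ᵐ s ∂μ, 0 ≤ f s) → ∀ᵐ s ∂μ, 0 ≤ (T f) s)

include hT

lemma realPart_pos : Pos (realPart T) := fun _ hf => (of_nonneg_ae (hT _ (inc_nonneg_ae hf))).1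

lemma T_inc (f : Lp ℝ p μ) : T (inc f) = inc (realPart T f) := by
  have h1 : ∀ f : Lp ℝ p μ, 0 ≤ f → T (inc f) = inc (realPart T f) := fun f hf =>
    (of_nonneg_ae (hT _ (inc_nonneg_ae hf))).2.symm
  have e : f = f⁺ - f⁻ := (posPart_sub_negPart f).symm
  rw [e, map_sub, map_sub, map_sub, map_sub, h1 _ (posPart_nonneg f), h1 _ (negPart_nonneg f)]

lemma T_pow_inc (n : ℕ) (f : Lp ℝ p μ) : (T ^ n) (inc f) = inc ((realPart T ^ n) f) := by
  induction n with
  | zero => simp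
  | succ n ih =>
    rw [pow_succ', pow_succ', mul_apply_eq_comp, mul_apply_eq_comp, ih, T_inc hT]

lemma neu_inc (L : ℕ) (f : Lp ℝ p μ) :
    neu T L (inc f) = inc (∑ l ∈ range L, ((1 : ℝ) / 2 ^ (l + 1)) • (realPart T ^ l) f) := by
  rw [neu, _root_.sum_apply, map_sum]
  refine Finset.sum_congr rfl fun l _ => ?_
  rw [_root_.smul_apply, T_pow_inc hT, map_smul]
  have : ((1 : ℂ) / 2 ^ (l + 1)) = (((1 : ℝ) / 2 ^ (l + 1) : ℝ) : ℂ) := by push_cast; rfl
  rw [this]
  exact Complex.coe_smul _ _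

lemma R_inc (h : spectrum ℂ T ⊆ Metric.closedBall 0 1) (f : Lp ℝ p μ) :
    Tendsto (fun L => ∑ l ∈ range L, ((1 : ℝ) / 2 ^ (l + 1)) • (realPart T ^ l) f) atTop
      (𝓝 (realPart (resolvent T (2 : ℂ)) f)) ∧
    resolvent T (2 : ℂ) (inc f) = inc (realPart (resolvent T (2 : ℂ)) f) := by
  have h1 : Tendsto (fun L => neu T L (inc f)) atTop (𝓝 (resolvent T (2 : ℂ) (inc f))) := by
    have := (ContinuousLinearMap.apply ℂ (Lp ℂ p μ) (inc f)).continuous.tendsto
      (resolvent T (2 : ℂ))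
    exact this.comp (neu_tendsto T h)
  have h2 : Tendsto (fun L => rp (neu T L (inc f))) atTop
      (𝓝 (rp (resolvent T (2 : ℂ) (inc f)))) := (rp.continuous.tendsto _).comp h1
  have h3 : Tendsto (fun L => inc (rp (neu T L (inc f)))) atTop
      (𝓝 (inc (rp (resolvent T (2 : ℂ) (inc f))))) :=
    ((inc (p := p) (μ := μ)).continuous.tendsto _).comp h2
  simp only [neu_inc hT, rp_inc] at h1 h2 h3
  exact ⟨h2, tendsto_nhds_unique h1 h3⟩

lemma R_pos (h : spectrum ℂ T ⊆ Metric.closedBall 0 1) :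
    Pos (realPart (resolvent T (2 : ℂ))) := by
  intro f hf
  refine ge_of_tendsto' (R_inc hT h f).1 fun L => ?_
  exact Finset.sum_nonneg fun l _ => smul_nonneg' (by positivity) ((realPart_pos hT).pow l f hf)

lemma R_pow_inc (h : spectrum ℂ T ⊆ Metric.closedBall 0 1) (n : ℕ) (f : Lp ℝ p μ) :
    (resolvent T (2 : ℂ) ^ n) (inc f) = inc ((realPart (resolvent T (2 : ℂ)) ^ n) f) := by
  induction n with
  | zero => simp
  | succ n ih =>
    rw [pow_succ', pow_succ', mul_apply_eq_comp, mul_apply_eq_comp, ih, (R_inc hT h _).2]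

lemma R_rec (h : spectrum ℂ T ⊆ Metric.closedBall 0 1) (f : Lp ℝ p μ) :
    realPart (resolvent T (2 : ℂ)) f
      = (1 / 2 : ℝ) • f + (1 / 2 : ℝ) • realPart T (realPart (resolvent T (2 : ℂ)) f) := by
  have h1 := (resolvent_eq T h).1
  have h2 := congrArg (fun U : Lp ℂ p μ →L[ℂ] Lp ℂ p μ => U (inc f)) h1
  simp only [mul_apply_eq_comp, one_apply_eq_self, (R_inc hT h f).2, _root_.sub_apply] at h2
  rw [T_inc hT] at h2
  set g := realPart (resolvent T (2 : ℂ)) f with hg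
  have h3 : (algebraMap ℂ (Lp ℂ p μ →L[ℂ] Lp ℂ p μ) 2) (inc g) = inc ((2 : ℝ) • g) := by
    rw [map_smul, Algebra.algebraMap_eq_smul_one, _root_.smul_apply, one_apply_eq_self]
    have : (2 : ℂ) = ((2 : ℝ) : ℂ) := by norm_num
    rw [this]
    exact Complex.coe_smul _ _
  rw [h3, ← map_sub] at h2
  have h4 := congrArg rp h2
  rw [rp_inc, rp_inc] at h4
  rw [← h4, smul_sub, smul_smul]
  norm_num

/-- Comparison of the powers of the resolvent with the weighted sums. -/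
lemma weights_le (h : spectrum ℂ T ⊆ Metric.closedBall 0 1) (k : ℕ) :
    ∀ (L : ℕ) (f : Lp ℝ p μ), 0 ≤ f →
      ∑ l ∈ range L, b k l • (realPart T ^ l) f
        ≤ (realPart (resolvent T (2 : ℂ)) ^ k) f := by
  set A := realPart T with hA
  set R := realPart (resolvent T (2 : ℂ)) with hR
  have hApos : Pos A := realPart_pos hT
  have hRpos : Pos R := R_pos hT h
  induction k with
  | zero =>
    intro L f hf
    rw [pow_zero, one_apply_eq_self]
    rcases L with _ | L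
    · simpa using hf
    · rw [Finset.sum_range_succ']
      simp [b]
  | succ k ihk =>
    intro L
    induction L with
    | zero =>
      intro f hf
      simpa using hRpos.pow (k + 1) f hf
    | succ L ihL =>
      intro f hf
      have e1 : (R ^ (k + 1)) f = (1 / 2 : ℝ) • (R ^ k) f
          + (1 / 2 : ℝ) • A ((R ^ (k + 1)) f) := by
        have := R_rec hT h ((R ^ k) f)
        rw [← hR, ← hA] at this
        rw [pow_succ', mul_apply_eq_comp]
        exact this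
      have e2 : ∑ l ∈ range (L + 1), b (k + 1) l • (A ^ l) f
          = (1 / 2 : ℝ) • ∑ l ∈ range (L + 1), b k l • (A ^ l) f
            + (1 / 2 : ℝ) • A (∑ l ∈ range L, b (k + 1) l • (A ^ l) f) := by
        rw [Finset.sum_range_succ', Finset.sum_range_succ' (fun l => b k l • (A ^ l) f),
          map_sum, smul_add, Finset.smul_sum, Finset.smul_sum, b_succ_zero]
        have e3 : ∀ l ∈ range L, b (k + 1) (l + 1) • (A ^ (l + 1)) f
            = (1 / 2 : ℝ) • b k (l + 1) • (A ^ (l + 1)) f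
              + (1 / 2 : ℝ) • A (b (k + 1) l • (A ^ l) f) := by
          intro l _
          rw [b_succ_succ, map_smul, ← mul_apply_eq_comp, ← pow_succ', smul_smul, smul_smul,
            ← add_smul]
        rw [Finset.sum_congr rfl e3, Finset.sum_add_distrib, smul_smul]
        abel
      rw [e1, e2]
      apply add_le_add
      · have := smul_nonneg' (c := 1 / 2) (by norm_num) (sub_nonneg.mpr (ihk (L + 1) f hf))
        rw [smul_sub] at this
        exact sub_nonneg.mp this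
      · have := smul_nonneg' (c := 1 / 2) (by norm_num)
          (sub_nonneg.mpr (hApos.mono (ihL f hf)))
        rw [smul_sub] at this
        exact sub_nonneg.mp this

lemma KR_realPart (h : spectrum ℂ T ⊆ Metric.closedBall 0 1) {M : ℝ}
    (hM : ∀ k : ℕ, 1 ≤ k → ‖resolvent T (2 : ℂ) ^ k‖ ≤ M) : KR (realPart T) M := by
  intro a L f hf
  have h1 := weights_le hT h (a + 1) L f hf
  have h0 : 0 ≤ ∑ l ∈ range L, b (a + 1) l • (realPart T ^ l) f :=
    Finset.sum_nonneg fun l _ => smul_nonneg' (b_nonneg _ _) ((realPart_pos hT).pow l f hf)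
  calc _ ≤ ‖(realPart (resolvent T (2 : ℂ)) ^ (a + 1)) f‖ := norm_le_of_nonneg_le h0 h1
    _ = ‖(resolvent T (2 : ℂ) ^ (a + 1)) (inc f)‖ := by
        rw [R_pow_inc hT h, norm_inc]
    _ ≤ ‖resolvent T (2 : ℂ) ^ (a + 1)‖ * ‖inc f‖ := ContinuousLinearMap.le_opNorm _ _
    _ ≤ M * ‖f‖ := by
        rw [norm_inc]
        exact mul_le_mul_of_nonneg_right (hM _ (by omega)) (norm_nonneg _)

lemma complex_bound (n : ℕ) {B : ℝ} (hB : 0 ≤ B)
    (h : ∀ f : Lp ℝ p μ, ‖(realPart T ^ n) f‖ ≤ B * ‖f‖) : ‖T ^ n‖ ≤ 2 * B := by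
  apply ContinuousLinearMap.opNorm_le_bound _ (by positivity)
  intro f
  have e : (T ^ n) f = inc ((realPart T ^ n) (rp f))
      + Complex.I • inc ((realPart T ^ n) (ip f)) := by
    conv_lhs => rw [decomp f]
    rw [map_add, map_smul, T_pow_inc hT, T_pow_inc hT]
  rw [e]
  calc _ ≤ ‖inc ((realPart T ^ n) (rp f))‖ + ‖Complex.I • inc ((realPart T ^ n) (ip f))‖ :=
        norm_add_le _ _
    _ = ‖(realPart T ^ n) (rp f)‖ + ‖(realPart T ^ n) (ip f)‖ := by
        rw [norm_smul, Complex.norm_I, one_mul, norm_inc, norm_inc]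
    _ ≤ B * ‖rp f‖ + B * ‖ip f‖ := add_le_add (h _) (h _)
    _ ≤ B * ‖f‖ + B * ‖f‖ := by
        gcongr
        · exact norm_rp_le f
        · exact norm_ip_le f
    _ = _ := by ring

end Positive

/-- Uniform polylogarithmic growth for positive operators on complex `L^p`. -/
theorem complex_growth (hpt : p ≠ ⊤) (hp1 : 1 < p) (M : ℝ) :
    ∃ C κ : ℝ, 0 ≤ C ∧ 0 ≤ κ ∧ ∀ (S : Type*) [MeasurableSpace S] (μ : Measure S)
      (T : Lp ℂ p μ →L[ℂ] Lp ℂ p μ),
      (∀ f : Lp ℂ p μ, (∀ᵐ s ∂μ, 0 ≤ f s) → ∀ᵐ s ∂μ, 0 ≤ (T f) s) →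
      spectrum ℂ T ⊆ Metric.closedBall 0 1 →
      (∀ k : ℕ, 1 ≤ k → ‖resolvent T (2 : ℂ) ^ k‖ ≤ M) →
      ∀ n : ℕ, 1 ≤ n → ‖T ^ n‖ ≤ C * (1 + Real.log n) ^ κ := by
  obtain ⟨C, κ, hC, hκ, h⟩ := real_growth hpt hp1 (max M 0) (le_max_right _ _)
  refine ⟨2 * C, κ, by positivity, hκ, ?_⟩
  intro S _ μ T hT hs hM n hn
  have hlog : 0 ≤ Real.log n := Real.log_nonneg (by exact_mod_cast hn)
  have h1 := h S μ (realPart T) (realPart_pos hT)
    (KR_realPart hT hs (fun k hk => (hM k hk).trans (le_max_left _ _))) n hn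
  have := complex_bound hT n (B := C * (1 + Real.log n) ^ κ) (by positivity) h1
  linarith

end Helper72.Kreiss
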