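import Pool.Agent.Helper72.KreissWeights

/-!
Positive operators on real `L^p` satisfying the window estimate have powers growing at most
polylogarithmically.
-/

open MeasureTheory Finset
open scoped ENNReal NNReal

namespace Helper72.Kreiss

/-! ### Pointwise duality -/

lemma pointwise_dual {ι : Type*} [Fintype ι] {p q : ℝ} (hpq : p.HolderConjugate q)
    (g : ι → ℝ) (hg : ∀ i, 0 ≤ g i) (v : ℝ) (hv : 0 ≤ v)
    (h : ∀ c : ι → ℝ≥0, ∑ i, (c i : ℝ) * g i ≤ (∑ i, (c i : ℝ) ^ q) ^ (1 / q) * v) :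
    ∑ i, g i ^ p ≤ v ^ p := by
  set W := ∑ i, g i ^ p with hW
  have hp0 : 0 < p := hpq.pos
  have hW0 : 0 ≤ W := Finset.sum_nonneg fun i _ => Real.rpow_nonneg (hg i) _
  have h1 := h (fun i => ⟨g i ^ (p - 1), Real.rpow_nonneg (hg i) _⟩)
  have hl : ∑ i, g i ^ (p - 1) * g i = W := by
    refine Finset.sum_congr rfl fun i _ => ?_
    rcases (hg i).eq_or_lt with h0 | h0
    · rw [← h0, mul_zero, Real.zero_rpow hp0.ne']
    · nth_rewrite 2 [← Real.rpow_one (g i)]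
      rw [← Real.rpow_add h0]
      simp
  have hr : ∑ i, (g i ^ (p - 1)) ^ q = W := by
    refine Finset.sum_congr rfl fun i _ => ?_
    rw [← Real.rpow_mul (hg i), hpq.sub_one_mul_conj]
  have h1 : ∑ i, g i ^ (p - 1) * g i ≤ (∑ i, (g i ^ (p - 1)) ^ q) ^ (1 / q) * v := h1
  rw [hl, hr] at h1
  rcases hW0.eq_or_lt with h0 | h0
  · rw [← h0]
    exact Real.rpow_nonneg hv _
  · have h2 : W ^ (1 / p) ≤ v := by
      have e : W = W ^ (1 / q) * W ^ (1 / p) := by
        rw [← Real.rpow_add h0]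
        have : 1 / q + 1 / p = 1 := by
          have := hpq.inv_add_inv_eq_one
          rw [one_div, one_div, add_comm]; exact this
        rw [this, Real.rpow_one]
      have h3 : W ^ (1 / q) * W ^ (1 / p) ≤ W ^ (1 / q) * v := by rw [← e]; exact h1
      exact le_of_mul_le_mul_left h3 (Real.rpow_pos_of_pos h0 _)
    calc W = (W ^ (1 / p)) ^ p := by
          rw [← Real.rpow_mul hW0, one_div, inv_mul_cancel₀ hp0.ne', Real.rpow_one]
      _ ≤ v ^ p := Real.rpow_le_rpow (Real.rpow_nonneg hW0 _) h2 hp0.le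

lemma dense_dual {ι : Type*} [Fintype ι] {q : ℝ} (hq : 0 < q)
    (g : ι → ℝ) (v : ℝ)
    (h : ∀ n, ∑ i, (TopologicalSpace.denseSeq (ι → ℝ≥0) n i : ℝ) * g i
      ≤ (∑ i, (TopologicalSpace.denseSeq (ι → ℝ≥0) n i : ℝ) ^ q) ^ (1 / q) * v)
    (c : ι → ℝ≥0) : ∑ i, (c i : ℝ) * g i ≤ (∑ i, (c i : ℝ) ^ q) ^ (1 / q) * v := by
  have hcl : IsClosed {c : ι → ℝ≥0 | ∑ i, (c i : ℝ) * g i
      ≤ (∑ i, (c i : ℝ) ^ q) ^ (1 / q) * v} := by
    apply isClosed_le
    · fun_prop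
    · apply Continuous.mul _ continuous_const
      apply Continuous.rpow_const
      · apply continuous_finsetSum
        intro i _
        apply Continuous.rpow_const (by fun_prop)
        intro _; right; exact hq.le
      · intro _; right; positivity
  have hd := TopologicalSpace.denseRange_denseSeq (ι → ℝ≥0)
  have : closure (Set.range (TopologicalSpace.denseSeq (ι → ℝ≥0))) ⊆ {c : ι → ℝ≥0 |
      ∑ i, (c i : ℝ) * g i ≤ (∑ i, (c i : ℝ) ^ q) ^ (1 / q) * v} := by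
    apply closure_minimal _ hcl
    rintro _ ⟨n, rfl⟩
    exact h n
  exact this (hd c)

/-- Hölder on a fibre of the addition map. -/
lemma fibre_holder {p q : ℝ} (hpq : p.HolderConjugate q) (N l : ℕ) (c : Fin (N + 1) → ℝ≥0)
    (u : Fin (N + 1) → ℝ) (hu : ∀ k, 0 ≤ u k) :
    ∑ x ∈ (univ : Finset (Fin (N + 1) × Fin (N + 1))).filter
        (fun x => (x.1 : ℕ) + (x.2 : ℕ) = l), (c x.1 : ℝ) * u x.2
      ≤ (∑ i, (c i : ℝ) ^ q) ^ (1 / q) * (∑ k, u k ^ p) ^ (1 / p) := by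
  classical
  set s := (univ : Finset (Fin (N + 1) × Fin (N + 1))).filter
        (fun x => (x.1 : ℕ) + (x.2 : ℕ) = l) with hs
  have h1 := Real.inner_le_Lp_mul_Lq_of_nonneg s hpq.symm
    (f := fun x => (c x.1 : ℝ)) (g := fun x => u x.2) (fun _ _ => NNReal.coe_nonneg _)
    (fun _ _ => hu _)
  refine h1.trans ?_
  have hi1 : Set.InjOn (Prod.fst : Fin (N + 1) × Fin (N + 1) → _) s := by
    rintro ⟨a1, a2⟩ ha ⟨b1, b2⟩ hb hab
    simp only [hs, coe_filter, mem_univ, true_and, Set.mem_ofPred_eq] at ha hb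
    simp only at hab
    subst hab
    have : a2 = b2 := by
      apply Fin.ext; omega
    rw [this]
  have hi2 : Set.InjOn (Prod.snd : Fin (N + 1) × Fin (N + 1) → _) s := by
    rintro ⟨a1, a2⟩ ha ⟨b1, b2⟩ hb hab
    simp only [hs, coe_filter, mem_univ, true_and, Set.mem_ofPred_eq] at ha hb
    simp only at hab
    subst hab
    have : a1 = b1 := by
      apply Fin.ext; omega
    rw [this]
  have e1 : ∑ x ∈ s, (c x.1 : ℝ) ^ q ≤ ∑ i, (c i : ℝ) ^ q := by
    rw [← Finset.sum_image (f := fun i => (c i : ℝ) ^ q) hi1]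
    exact Finset.sum_le_sum_of_subset_of_nonneg (subset_univ _)
      (fun _ _ _ => Real.rpow_nonneg (NNReal.coe_nonneg _) _)
  have e2 : ∑ x ∈ s, u x.2 ^ p ≤ ∑ k, u k ^ p := by
    rw [← Finset.sum_image (f := fun k => u k ^ p) hi2]
    exact Finset.sum_le_sum_of_subset_of_nonneg (subset_univ _)
      (fun _ _ _ => Real.rpow_nonneg (hu _) _)
  have hq0 : 0 ≤ 1 / q := by have := hpq.symm.pos; positivity
  have hp0 : 0 ≤ 1 / p := by have := hpq.pos; positivity
  apply mul_le_mul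
  · exact Real.rpow_le_rpow (Finset.sum_nonneg fun _ _ =>
      Real.rpow_nonneg (NNReal.coe_nonneg _) _) e1 hq0
  · exact Real.rpow_le_rpow (Finset.sum_nonneg fun _ _ =>
      Real.rpow_nonneg (hu _) _) e2 hp0
  · exact Real.rpow_nonneg (Finset.sum_nonneg fun _ _ =>
      Real.rpow_nonneg (hu _) _) _
  · exact Real.rpow_nonneg (Finset.sum_nonneg fun _ _ =>
      Real.rpow_nonneg (NNReal.coe_nonneg _) _) _

/-! ### Norms in `L^p` -/

variable {S : Type*} [MeasurableSpace S] {μ : Measure S} {p : ℝ≥0∞} [Fact (1 ≤ p)]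

lemma ofReal_norm_rpow (hp0 : p ≠ 0) (hpt : p ≠ ⊤) (f : Lp ℝ p μ) :
    ENNReal.ofReal (‖f‖ ^ p.toReal) = ∫⁻ s, ‖f s‖ₑ ^ p.toReal ∂μ := by
  have hr : 0 < p.toReal := ENNReal.toReal_pos hp0 hpt
  rw [← ENNReal.ofReal_rpow_of_nonneg (by positivity) hr.le, Lp.norm_def,
    ENNReal.ofReal_toReal (Lp.eLpNorm_ne_top f),
    eLpNorm_eq_lintegral_rpow_enorm_toReal hp0 hpt, ← ENNReal.rpow_mul, one_div,
    inv_mul_cancel₀ hr.ne', ENNReal.rpow_one]

lemma sum_norm_rpow_le (hp0 : p ≠ 0) (hpt : p ≠ ⊤) {ι : Type*} (t : Finset ι)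
    (G : ι → Lp ℝ p μ) (W : Lp ℝ p μ)
    (h : ∀ᵐ s ∂μ, ∑ i ∈ t, |G i s| ^ p.toReal ≤ |W s| ^ p.toReal) :
    ∑ i ∈ t, ‖G i‖ ^ p.toReal ≤ ‖W‖ ^ p.toReal := by
  have hr : 0 < p.toReal := ENNReal.toReal_pos hp0 hpt
  rw [← ENNReal.ofReal_le_ofReal_iff (Real.rpow_nonneg (norm_nonneg _) _),
    ofReal_norm_rpow hp0 hpt,
    ENNReal.ofReal_sum_of_nonneg (fun i _ => Real.rpow_nonneg (norm_nonneg _) _)]
  simp_rw [ofReal_norm_rpow hp0 hpt]
  rw [← lintegral_finsetSum']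
  · apply lintegral_mono_ae
    filter_upwards [h] with s hs
    have := ENNReal.ofReal_le_ofReal hs
    rw [ENNReal.ofReal_sum_of_nonneg (fun i _ => Real.rpow_nonneg (abs_nonneg _) _)] at this
    simp only [Real.enorm_eq_ofReal_abs]
    simpa only [ENNReal.ofReal_rpow_of_nonneg (abs_nonneg _) hr.le] using this
  · intro i _
    have := (Lp.aestronglyMeasurable (G i)).enorm
    exact this.pow_const _

lemma norm_rpow_le_sum (hp0 : p ≠ 0) (hpt : p ≠ ⊤) {ι : Type*} (t : Finset ι)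
    (F : ι → Lp ℝ p μ) (A : Lp ℝ p μ)
    (h : ∀ᵐ s ∂μ, |A s| ^ p.toReal ≤ ∑ i ∈ t, |F i s| ^ p.toReal) :
    ‖A‖ ^ p.toReal ≤ ∑ i ∈ t, ‖F i‖ ^ p.toReal := by
  have hr : 0 < p.toReal := ENNReal.toReal_pos hp0 hpt
  rw [← ENNReal.ofReal_le_ofReal_iff (Finset.sum_nonneg fun i _ =>
      Real.rpow_nonneg (norm_nonneg _) _),
    ofReal_norm_rpow hp0 hpt,
    ENNReal.ofReal_sum_of_nonneg (fun i _ => Real.rpow_nonneg (norm_nonneg _) _)]
  simp_rw [ofReal_norm_rpow hp0 hpt]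
  rw [← lintegral_finsetSum']
  · apply lintegral_mono_ae
    filter_upwards [h] with s hs
    have := ENNReal.ofReal_le_ofReal hs
    rw [ENNReal.ofReal_sum_of_nonneg (fun i _ => Real.rpow_nonneg (abs_nonneg _) _)] at this
    simp only [Real.enorm_eq_ofReal_abs]
    simpa only [ENNReal.ofReal_rpow_of_nonneg (abs_nonneg _) hr.le] using this
  · intro i _
    have := (Lp.aestronglyMeasurable (F i)).enorm
    exact this.pow_const _

/-- The `ℓ^p` amalgam of a finite family in `L^p`. -/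
lemma exists_amalgam (hp0 : p ≠ 0) (hpt : p ≠ ⊤) {ι : Type*} (t : Finset ι)
    (F : ι → Lp ℝ p μ) :
    ∃ A : Lp ℝ p μ, ∀ᵐ s ∂μ, A s = (∑ i ∈ t, |F i s| ^ p.toReal) ^ (1 / p.toReal) := by
  have hr : 0 < p.toReal := ENNReal.toReal_pos hp0 hpt
  have hm : MemLp (fun s => (∑ i ∈ t, |F i s| ^ p.toReal) ^ (1 / p.toReal)) p μ := by
    refine ⟨?_, ?_⟩
    · apply AEMeasurable.aestronglyMeasurable
      apply AEMeasurable.pow_const
      apply Finset.aemeasurable_fun_sum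
      intro i _
      apply AEMeasurable.pow_const
      exact (Lp.aestronglyMeasurable (F i)).aemeasurable.abs
    · rw [eLpNorm_lt_top_iff_lintegral_rpow_enorm_lt_top hp0 hpt]
      have : ∀ s, ‖(∑ i ∈ t, |F i s| ^ p.toReal) ^ (1 / p.toReal)‖ₑ ^ p.toReal
          = ∑ i ∈ t, ‖F i s‖ₑ ^ p.toReal := by
        intro s
        have h0 : 0 ≤ ∑ i ∈ t, |F i s| ^ p.toReal := Finset.sum_nonneg fun i _ => by positivity
        rw [Real.enorm_eq_ofReal (by positivity), ENNReal.ofReal_rpow_of_nonneg (by positivity) hr.le,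
          ← Real.rpow_mul h0, one_div, inv_mul_cancel₀ hr.ne', Real.rpow_one,
          ENNReal.ofReal_sum_of_nonneg (fun i _ => Real.rpow_nonneg (abs_nonneg _) _)]
        refine Finset.sum_congr rfl fun i _ => ?_
        rw [Real.enorm_eq_ofReal_abs, ENNReal.ofReal_rpow_of_nonneg (abs_nonneg _) hr.le]
      simp_rw [this]
      rw [lintegral_finsetSum']
      · rw [ENNReal.sum_lt_top]
        intro i _
        rw [← ofReal_norm_rpow hp0 hpt]
        exact ENNReal.ofReal_lt_top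
      · intro i _
        have := (Lp.aestronglyMeasurable (F i)).enorm
        exact this.pow_const _
  exact ⟨hm.toLp _, hm.coeFn_toLp⟩

end Helper72.Kreiss
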