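import Pool.Agent.Helper72.KreissCore

/-!
The Hankel form inequality and the two square root recursions.
-/

open MeasureTheory Finset
open scoped ENNReal NNReal

namespace Helper72.Kreiss

variable {S : Type*} [MeasurableSpace S] {μ : Measure S} {p : ℝ≥0∞} [Fact (1 ≤ p)]

/-- Positivity of an operator on real `L^p`. -/
def Pos (T : Lp ℝ p μ →L[ℝ] Lp ℝ p μ) : Prop := ∀ f, 0 ≤ f → 0 ≤ T f

lemma Pos.pow {T : Lp ℝ p μ →L[ℝ] Lp ℝ p μ} (hT : Pos T) (n : ℕ) : Pos (T ^ n) := by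
  induction n with
  | zero => intro f hf; simpa using hf
  | succ n ih =>
    intro f hf
    rw [pow_succ']
    exact hT _ (ih f hf)

lemma Pos.mono {T : Lp ℝ p μ →L[ℝ] Lp ℝ p μ} (hT : Pos T) {f g : Lp ℝ p μ} (h : f ≤ g) :
    T f ≤ T g := by
  have := hT (g - f) (sub_nonneg.mpr h)
  rw [map_sub] at this
  exact sub_nonneg.mp this

lemma smul_nonneg' {c : ℝ} (hc : 0 ≤ c) {f : Lp ℝ p μ} (hf : 0 ≤ f) : 0 ≤ c • f := by
  rw [← Lp.coeFn_nonneg] at hf ⊢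
  filter_upwards [hf, Lp.coeFn_smul c f] with s hs h1
  rw [h1]
  simp only [Pi.zero_apply, Pi.smul_apply, smul_eq_mul] at hs ⊢
  positivity

lemma norm_le_of_nonneg_le {f g : Lp ℝ p μ} (hf : 0 ≤ f) (h : f ≤ g) : ‖f‖ ≤ ‖g‖ := by
  apply norm_le_norm_of_abs_le_abs
  rwa [abs_of_nonneg hf, abs_of_nonneg (hf.trans h)]

lemma key (hpt : p ≠ ⊤) {q : ℝ} (hpq : p.toReal.HolderConjugate q)
    {T : Lp ℝ p μ →L[ℝ] Lp ℝ p μ} (hT : Pos T) (N a : ℕ) {K : ℝ} (hK : 0 ≤ K)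
    (hV : ∀ f : Lp ℝ p μ, 0 ≤ f → ‖∑ l ∈ range (2 * N + 1), (T ^ (a + l)) f‖ ≤ K * ‖f‖)
    (F : Fin (N + 1) → Lp ℝ p μ) (hF : ∀ k, 0 ≤ F k) :
    ∑ i : Fin (N + 1), ‖∑ k : Fin (N + 1), (T ^ (a + i + k)) (F k)‖ ^ p.toReal
      ≤ K ^ p.toReal * ∑ k, ‖F k‖ ^ p.toReal := by
  classical
  have hp0 : p ≠ 0 := (lt_of_lt_of_le zero_lt_one (Fact.out : 1 ≤ p)).ne'
  have hr : 0 < p.toReal := hpq.pos
  obtain ⟨A, hA⟩ := exists_amalgam hp0 hpt univ F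
  have hFs : ∀ᵐ s ∂μ, ∀ k, 0 ≤ F k s := by
    rw [ae_all_iff]
    intro k
    exact (Lp.coeFn_nonneg (F k)).mpr (hF k)
  have hA0 : 0 ≤ A := by
    rw [← Lp.coeFn_nonneg]
    filter_upwards [hA] with s hs
    rw [hs]
    exact Real.rpow_nonneg (Finset.sum_nonneg fun _ _ => Real.rpow_nonneg (abs_nonneg _) _) _
  set W := ∑ l ∈ range (2 * N + 1), (T ^ (a + l)) A with hW
  set G : Fin (N + 1) → Lp ℝ p μ := fun i => ∑ k : Fin (N + 1), (T ^ (a + i + k)) (F k) with hG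
  have hG0 : ∀ i, 0 ≤ G i := fun i => Finset.sum_nonneg fun k _ => hT.pow _ _ (hF k)
  have hW0 : 0 ≤ W := Finset.sum_nonneg fun l _ => hT.pow _ _ hA0
  -- the inequality in the lattice for each coefficient vector
  have hc : ∀ c : Fin (N + 1) → ℝ≥0,
      ∑ i, (c i : ℝ) • G i ≤ ((∑ i, (c i : ℝ) ^ q) ^ (1 / q)) • W := by
    intro c
    set Q := (∑ i, (c i : ℝ) ^ q) ^ (1 / q) with hQ
    have hmaps : ∀ x ∈ (univ : Finset (Fin (N + 1) × Fin (N + 1))),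
        (x.1 : ℕ) + (x.2 : ℕ) ∈ range (2 * N + 1) := by
      rintro ⟨i, k⟩ _
      have := i.2
      have := k.2
      simp only [mem_range]
      omega
    have e1 : ∑ i, (c i : ℝ) • G i = ∑ l ∈ range (2 * N + 1),
        (T ^ (a + l)) (∑ x ∈ (univ : Finset (Fin (N + 1) × Fin (N + 1))).filter
        (fun x => (x.1 : ℕ) + (x.2 : ℕ) = l), (c x.1 : ℝ) • F x.2) := by
      have e2 : ∑ i, (c i : ℝ) • G i = ∑ x : Fin (N + 1) × Fin (N + 1),
          (T ^ (a + ((x.1 : ℕ) + (x.2 : ℕ)))) ((c x.1 : ℝ) • F x.2) := by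
        rw [Fintype.sum_prod_type]
        refine Finset.sum_congr rfl fun i _ => ?_
        rw [hG, Finset.smul_sum]
        refine Finset.sum_congr rfl fun k _ => ?_
        rw [map_smul, add_assoc]
      rw [e2, ← Finset.sum_fiberwise_of_maps_to hmaps]
      refine Finset.sum_congr rfl fun l _ => ?_
      rw [map_sum]
      refine Finset.sum_congr rfl fun x hx => ?_
      rw [(Finset.mem_filter.mp hx).2]
    rw [e1, hW, Finset.smul_sum]
    apply Finset.sum_le_sum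
    intro l _
    rw [← map_smul]
    apply (hT.pow _).mono
    rw [← Lp.coeFn_le]
    have h3 := Lp.coeFn_fun_finsetSum ((univ : Finset (Fin (N + 1) × Fin (N + 1))).filter
        (fun x => (x.1 : ℕ) + (x.2 : ℕ) = l)) (fun x => (c x.1 : ℝ) • F x.2)
    have h4 : ∀ᵐ s ∂μ, ∀ x : Fin (N + 1) × Fin (N + 1),
        ((c x.1 : ℝ) • F x.2 : Lp ℝ p μ) s = (c x.1 : ℝ) * F x.2 s := by
      rw [ae_all_iff]
      intro x
      filter_upwards [Lp.coeFn_smul (c x.1 : ℝ) (F x.2)] with s hs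
      rw [hs]; rfl
    filter_upwards [h3, h4, hA, hFs, Lp.coeFn_smul Q A] with s h3 h4 h5 h6 h7
    rw [h3, h7]
    simp only [h4, Pi.smul_apply, smul_eq_mul]
    rw [h5]
    simp only [abs_of_nonneg (h6 _)]
    exact fibre_holder hpq N l c (fun k => F k s) h6
  -- pointwise a.e. form
  have hpt' : ∀ᵐ s ∂μ, ∀ n, ∑ i, (TopologicalSpace.denseSeq (Fin (N + 1) → ℝ≥0) n i : ℝ) * G i s
      ≤ (∑ i, (TopologicalSpace.denseSeq (Fin (N + 1) → ℝ≥0) n i : ℝ) ^ q) ^ (1 / q) * W s := by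
    rw [ae_all_iff]
    intro n
    set c := TopologicalSpace.denseSeq (Fin (N + 1) → ℝ≥0) n with hcdef
    have h1 := (Lp.coeFn_le _ _).mpr (hc c)
    have h3 := Lp.coeFn_fun_finsetSum univ (fun i => (c i : ℝ) • G i)
    have h4 : ∀ᵐ s ∂μ, ∀ i : Fin (N + 1),
        ((c i : ℝ) • G i : Lp ℝ p μ) s = (c i : ℝ) * G i s := by
      rw [ae_all_iff]
      intro i
      filter_upwards [Lp.coeFn_smul (c i : ℝ) (G i)] with s hs
      rw [hs]; rfl
    filter_upwards [h1, h3, h4, Lp.coeFn_smul ((∑ i, (c i : ℝ) ^ q) ^ (1 / q)) W] with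
      s h1 h3 h4 h5
    rw [h3, h5] at h1
    simpa only [h4, Pi.smul_apply, smul_eq_mul] using h1
  have hfin : ∀ᵐ s ∂μ, ∑ i, |G i s| ^ p.toReal ≤ |W s| ^ p.toReal := by
    have hGs : ∀ᵐ s ∂μ, ∀ k, 0 ≤ G k s := by
      rw [ae_all_iff]
      intro k
      exact (Lp.coeFn_nonneg (G k)).mpr (hG0 k)
    have hWs : ∀ᵐ s ∂μ, 0 ≤ W s := (Lp.coeFn_nonneg W).mpr hW0
    filter_upwards [hpt', hGs, hWs] with s h1 h2 h3
    simp only [abs_of_nonneg (h2 _), abs_of_nonneg h3]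
    exact pointwise_dual hpq _ h2 _ h3 (dense_dual hpq.symm.pos _ _ h1)
  have hAn : ‖A‖ ^ p.toReal ≤ ∑ k, ‖F k‖ ^ p.toReal := by
    apply norm_rpow_le_sum hp0 hpt
    filter_upwards [hA] with s hs
    have h0 : 0 ≤ ∑ i, |F i s| ^ p.toReal := Finset.sum_nonneg fun i _ => by positivity
    rw [hs, abs_of_nonneg (Real.rpow_nonneg h0 _), ← Real.rpow_mul h0, one_div,
      inv_mul_cancel₀ hr.ne', Real.rpow_one]
  calc ∑ i, ‖G i‖ ^ p.toReal ≤ ‖W‖ ^ p.toReal := sum_norm_rpow_le hp0 hpt univ G W hfin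
    _ ≤ (K * ‖A‖) ^ p.toReal := Real.rpow_le_rpow (norm_nonneg _) (hV A hA0) hr.le
    _ = K ^ p.toReal * ‖A‖ ^ p.toReal := Real.mul_rpow hK (norm_nonneg _)
    _ ≤ _ := mul_le_mul_of_nonneg_left hAn (Real.rpow_nonneg hK _)

end Helper72.Kreiss
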