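import Pool.Agent.Helper72.KreissRec

/-!
The polylogarithmic bound for positive operators on real `L^p`.
-/

open MeasureTheory Finset
open scoped ENNReal NNReal

namespace Helper72.Kreiss

variable {S : Type*} [MeasurableSpace S] {μ : Measure S} {p : ℝ≥0∞} [Fact (1 ≤ p)]

/-- The information on `T` extracted from the resolvent at the point `2`. -/
def KR (T : Lp ℝ p μ →L[ℝ] Lp ℝ p μ) (M : ℝ) : Prop :=
  ∀ a L : ℕ, ∀ f : Lp ℝ p μ, 0 ≤ f → ‖∑ l ∈ range L, b (a + 1) l • (T ^ l) f‖ ≤ M * ‖f‖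

lemma window_of_KR {T : Lp ℝ p μ →L[ℝ] Lp ℝ p μ} (hT : Pos T) {M : ℝ} (hM : KR T M) :
    Window T (cW * M) := by
  intro n hn f hf
  set N := Nat.sqrt n with hN
  set a := n - N with ha
  have hcW := cW_pos
  have hpos : ∀ l, 0 ≤ (T ^ l) f := fun l => hT.pow l f hf
  have h1 : ∑ l ∈ range (2 * N + 1), (T ^ (a + l)) f
      ≤ (cW * (N + 1)) • ∑ l ∈ range (a + (2 * N + 1)), b (a + 1) l • (T ^ l) f := by
    rw [Finset.sum_range_add (fun l => b (a + 1) l • (T ^ l) f) a (2 * N + 1), smul_add]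
    have h2 : ∑ l ∈ range (2 * N + 1), (T ^ (a + l)) f
        ≤ (cW * (N + 1)) • ∑ l ∈ range (2 * N + 1), b (a + 1) (a + l) • (T ^ (a + l)) f := by
      rw [Finset.smul_sum]
      apply Finset.sum_le_sum
      intro l hl
      have hl' : l ≤ 2 * N := by simpa [Nat.lt_succ_iff] using hl
      have h3 := one_le_window n hn l hl'
      rw [← hN, ← ha] at h3
      rw [smul_smul, ← sub_nonneg]
      have e : (cW * ((N : ℝ) + 1) * b (a + 1) (a + l)) • (T ^ (a + l)) f - (T ^ (a + l)) f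
          = (cW * ((N : ℝ) + 1) * b (a + 1) (a + l) - 1) • (T ^ (a + l)) f := by
        rw [sub_smul, one_smul]
      rw [e]
      exact smul_nonneg' (by linarith) (hpos _)
    refine h2.trans ?_
    rw [le_add_iff_nonneg_left]
    apply smul_nonneg' (by positivity)
    exact Finset.sum_nonneg fun l _ => smul_nonneg' (b_nonneg _ _) (hpos _)
  have h0 : 0 ≤ ∑ l ∈ range (2 * N + 1), (T ^ (a + l)) f :=
    Finset.sum_nonneg fun l _ => hpos _
  calc _ ≤ ‖(cW * ((N : ℝ) + 1)) • ∑ l ∈ range (a + (2 * N + 1)), b (a + 1) l • (T ^ l) f‖ :=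
        norm_le_of_nonneg_le h0 h1
    _ = (cW * (N + 1)) * ‖∑ l ∈ range (a + (2 * N + 1)), b (a + 1) l • (T ^ l) f‖ := by
        rw [norm_smul, Real.norm_of_nonneg (by positivity)]
    _ ≤ (cW * (N + 1)) * (M * ‖f‖) := by
        apply mul_le_mul_of_nonneg_left (hM _ _ _ hf) (by positivity)
    _ = _ := by ring

lemma norm_T_le {T : Lp ℝ p μ →L[ℝ] Lp ℝ p μ} (hT : Pos T) {K : ℝ} (hW : Window T K)
    {f : Lp ℝ p μ} (hf : 0 ≤ f) : ‖T f‖ ≤ 2 * K * ‖f‖ := by
  have h := hW 1 le_rfl f hf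
  have hs : Nat.sqrt 1 = 1 := by norm_num
  rw [hs] at h
  have e : ∑ l ∈ range (2 * 1 + 1), (T ^ (1 - 1 + l)) f = f + T f + (T ^ 2) f := by
    simp [Finset.sum_range_succ]
  rw [e] at h
  have h1 : T f ≤ f + T f + (T ^ 2) f := by
    have h2 := hT.pow 2 f hf
    have : f + T f + (T ^ 2) f - T f = f + (T ^ 2) f := by abel
    rw [← sub_nonneg, this]
    exact add_nonneg hf h2
  have h3 := norm_le_of_nonneg_le (hT f hf) h1
  calc ‖T f‖ ≤ _ := h3
    _ ≤ _ := h
    _ = 2 * K * ‖f‖ := by rw [Nat.cast_one]; ring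

lemma base1 {T : Lp ℝ p μ →L[ℝ] Lp ℝ p μ} (hT : Pos T) {K : ℝ} (hK : 0 ≤ K) (hW : Window T K)
    (hr : 0 < p.toReal) :
    P1 T 1 (1 + (2 * K) ^ p.toReal) := by
  intro m hm f hf
  have hfn : 0 ≤ ‖f‖ ^ p.toReal := by positivity
  have hKn : 0 ≤ (2 * K) ^ p.toReal := by positivity
  interval_cases m
  · simp only [sum_range_one, pow_zero, one_apply_eq_self, Nat.cast_zero, zero_add,
      mul_one]
    nlinarith
  · have h1 : ‖T f‖ ^ p.toReal ≤ (2 * K) ^ p.toReal * ‖f‖ ^ p.toReal := by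
      rw [← Real.mul_rpow (by positivity) (norm_nonneg _)]
      exact Real.rpow_le_rpow (norm_nonneg _) (norm_T_le hT hW hf) hr.le
    simp only [Finset.sum_range_succ, Finset.sum_range_zero, pow_zero, one_apply_eq_self, pow_one,
      zero_add, Nat.cast_one]
    nlinarith

lemma base2 {T : Lp ℝ p μ →L[ℝ] Lp ℝ p μ} (hT : Pos T) {K : ℝ} (hK : 0 ≤ K) (hW : Window T K)
    (hr : 0 < p.toReal) {q : ℝ} (hq : 0 < q) :
    P2 T q 1 (1 + 2 * K) := by
  intro m hm F hF
  interval_cases m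
  · simp only [sum_range_one, pow_zero, one_apply_eq_self, Nat.cast_zero, zero_add,
      Real.one_rpow, one_mul]
    rw [← Real.rpow_mul (norm_nonneg _), mul_one_div_cancel hr.ne', Real.rpow_one]
    have : 0 ≤ ‖F 0‖ := norm_nonneg _
    nlinarith
  · simp only [Finset.sum_range_succ, Finset.sum_range_zero, pow_zero, one_apply_eq_self, pow_one,
      zero_add, Nat.cast_one]
    set Z := (‖F 0‖ ^ p.toReal + ‖F 1‖ ^ p.toReal) ^ (1 / p.toReal) with hZ
    have h0 : ‖F 0‖ ≤ Z := by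
      calc ‖F 0‖ = (‖F 0‖ ^ p.toReal) ^ (1 / p.toReal) := by
            rw [← Real.rpow_mul (norm_nonneg _), mul_one_div_cancel hr.ne', Real.rpow_one]
        _ ≤ Z := by
            apply Real.rpow_le_rpow (by positivity) _ (by positivity)
            have : 0 ≤ ‖F 1‖ ^ p.toReal := by positivity
            linarith
    have h1 : ‖F 1‖ ≤ Z := by
      calc ‖F 1‖ = (‖F 1‖ ^ p.toReal) ^ (1 / p.toReal) := by
            rw [← Real.rpow_mul (norm_nonneg _), mul_one_div_cancel hr.ne', Real.rpow_one]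
        _ ≤ Z := by
            apply Real.rpow_le_rpow (by positivity) _ (by positivity)
            have : 0 ≤ ‖F 0‖ ^ p.toReal := by positivity
            linarith
    have h2 : ‖T (F 1)‖ ≤ 2 * K * Z :=
      (norm_T_le hT hW (hF 1)).trans (mul_le_mul_of_nonneg_left h1 (by positivity))
    have hZ0 : 0 ≤ Z := (norm_nonneg _).trans h0
    have h3 : (1 : ℝ) ≤ (1 + 1) ^ (1 / q) := Real.one_le_rpow (by norm_num) (by positivity)
    calc ‖F 0 + T (F 1)‖ ≤ ‖F 0‖ + ‖T (F 1)‖ := norm_add_le _ _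
      _ ≤ (1 + 2 * K) * (1 * Z) := by linarith
      _ ≤ _ := by
          apply mul_le_mul_of_nonneg_left _ (by positivity)
          exact mul_le_mul_of_nonneg_right h3 hZ0

lemma iterate (hpt : p ≠ ⊤) {q : ℝ} (hpq : p.toReal.HolderConjugate q)
    {T : Lp ℝ p μ →L[ℝ] Lp ℝ p μ} (hT : Pos T) {K : ℝ} (hK : 0 ≤ K) (hW : Window T K)
    {K1 K2 : ℝ} (hK1 : 1 ≤ K1) (hK1' : 2 * K ^ p.toReal ≤ K1) (hK2 : 1 ≤ K2)
    (hK2' : 2 * K ≤ K2) (j : ℕ) :
    ∀ n < 2 ^ (2 ^ j), P1 T n (K1 ^ j * (1 + (2 * K) ^ p.toReal)) ∧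
      P2 T q n (K2 ^ j * (1 + 2 * K)) := by
  have hr : 0 < p.toReal := hpq.pos
  have hq : 0 < q := hpq.symm.pos
  induction j with
  | zero =>
    intro n hn
    have hn1 : n ≤ 1 := by simpa using Nat.lt_succ_iff.mp (by simpa using hn)
    simp only [pow_zero, one_mul]
    refine ⟨fun m hm => base1 hT hK hW hr m (hm.trans hn1),
      fun m hm => base2 hT hK hW hr hq m (hm.trans hn1)⟩
  | succ j ih =>
    intro n hn
    have hsq : Nat.sqrt n < 2 ^ (2 ^ j) := by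
      rw [Nat.sqrt_lt]
      rw [← pow_add, ← two_mul, ← pow_succ']
      exact hn
    obtain ⟨h1, h2⟩ := ih _ hsq
    have hG : 1 ≤ K1 ^ j * (1 + (2 * K) ^ p.toReal) := by
      apply one_le_mul_of_one_le_of_one_le (one_le_pow₀ hK1)
      have : 0 ≤ (2 * K) ^ p.toReal := by positivity
      linarith
    have hD : 1 ≤ K2 ^ j * (1 + 2 * K) := by
      apply one_le_mul_of_one_le_of_one_le (one_le_pow₀ hK2)
      linarith
    have h3 := step1 hpt hpq hT hK hW n hG hK1 hK1' h1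
    have h4 := step2 hpt hpq hT hK hW n hD hK2 hK2' h2
    rw [← mul_assoc, ← pow_succ'] at h3 h4
    exact ⟨h3, h4⟩

lemma combine {q : ℝ} (hpq : p.toReal.HolderConjugate q)
    {T : Lp ℝ p μ →L[ℝ] Lp ℝ p μ} (hT : Pos T) (n : ℕ) {G D : ℝ} (hG : 0 ≤ G) (hD : 0 ≤ D)
    (h1 : P1 T n G) (h2 : P2 T q n D) (f : Lp ℝ p μ) (hf : 0 ≤ f) :
    ‖(T ^ n) f‖ ≤ D * G ^ (1 / p.toReal) * ‖f‖ := by
  have hr : 0 < p.toReal := hpq.pos
  have h := h2 n le_rfl (fun k => (T ^ (n - k)) f) (fun k => hT.pow _ _ hf)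
  have e1 : ∑ k ∈ range (n + 1), (T ^ k) ((T ^ (n - k)) f) = ((n : ℝ) + 1) • (T ^ n) f := by
    have : ∀ k ∈ range (n + 1), (T ^ k) ((T ^ (n - k)) f) = (T ^ n) f := by
      intro k hk
      have hk' : k ≤ n := by simpa [Nat.lt_succ_iff] using hk
      rw [← mul_apply_eq_comp, ← pow_add]
      congr 2
      omega
    rw [Finset.sum_congr rfl this, Finset.sum_const, card_range, ← Nat.cast_smul_eq_nsmul ℝ]
    push_cast
    rfl
  have e2 : ∑ k ∈ range (n + 1), ‖(T ^ (n - k)) f‖ ^ p.toReal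
      = ∑ k ∈ range (n + 1), ‖(T ^ k) f‖ ^ p.toReal := by
    have := Finset.sum_range_reflect (fun k => ‖(T ^ k) f‖ ^ p.toReal) (n + 1)
    simpa using this
  have hn : (0 : ℝ) < n + 1 := by positivity
  rw [e1, e2, norm_smul, Real.norm_of_nonneg hn.le] at h
  have h3 : (∑ k ∈ range (n + 1), ‖(T ^ k) f‖ ^ p.toReal) ^ (1 / p.toReal)
      ≤ G ^ (1 / p.toReal) * ((n : ℝ) + 1) ^ (1 / p.toReal) * ‖f‖ := by
    calc _ ≤ (G * (n + 1) * ‖f‖ ^ p.toReal) ^ (1 / p.toReal) := by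
          apply Real.rpow_le_rpow (Finset.sum_nonneg fun _ _ =>
            Real.rpow_nonneg (norm_nonneg _) _) (h1 n le_rfl f hf) (by positivity)
      _ = _ := by
          rw [Real.mul_rpow (by positivity) (by positivity), Real.mul_rpow hG hn.le,
            ← Real.rpow_mul (norm_nonneg _), mul_one_div_cancel hr.ne', Real.rpow_one]
  have h4 : ((n : ℝ) + 1) * ‖(T ^ n) f‖ ≤ ((n : ℝ) + 1) * (D * G ^ (1 / p.toReal) * ‖f‖) := by
    calc _ ≤ _ := h
      _ ≤ D * (((n : ℝ) + 1) ^ (1 / q)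
          * (G ^ (1 / p.toReal) * ((n : ℝ) + 1) ^ (1 / p.toReal) * ‖f‖)) := by
          apply mul_le_mul_of_nonneg_left _ hD
          apply mul_le_mul_of_nonneg_left h3 (by positivity)
      _ = D * G ^ (1 / p.toReal) * ‖f‖
          * (((n : ℝ) + 1) ^ (1 / q) * ((n : ℝ) + 1) ^ (1 / p.toReal)) := by ring
      _ = _ := by
          rw [← Real.rpow_add hn]
          have : 1 / q + 1 / p.toReal = 1 := by
            have := hpq.inv_add_inv_eq_one
            rw [one_div, one_div, add_comm]; exact this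
          rw [this, Real.rpow_one]
          ring
  exact le_of_mul_le_mul_left h4 hn

/-- Growth on the positive cone, dyadic form. -/
lemma pos_growth (hpt : p ≠ ⊤) {q : ℝ} (hpq : p.toReal.HolderConjugate q)
    {T : Lp ℝ p μ →L[ℝ] Lp ℝ p μ} (hT : Pos T) {K : ℝ} (hK : 0 ≤ K) (hW : Window T K)
    {K1 K2 : ℝ} (hK1 : 1 ≤ K1) (hK1' : 2 * K ^ p.toReal ≤ K1) (hK2 : 1 ≤ K2)
    (hK2' : 2 * K ≤ K2) (j n : ℕ) (hn : n < 2 ^ (2 ^ j)) (f : Lp ℝ p μ) (hf : 0 ≤ f) :
    ‖(T ^ n) f‖ ≤ ((1 + 2 * K) * (1 + (2 * K) ^ p.toReal) ^ (1 / p.toReal))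
      * (K2 * K1 ^ (1 / p.toReal)) ^ j * ‖f‖ := by
  have hr : 0 < p.toReal := hpq.pos
  obtain ⟨h1, h2⟩ := iterate hpt hpq hT hK hW hK1 hK1' hK2 hK2' j n hn
  have hKn : 0 ≤ (2 * K) ^ p.toReal := by positivity
  have := combine hpq hT n (by positivity) (by positivity) h1 h2 f hf
  rw [Real.mul_rpow (by positivity) (by positivity)] at this
  have e : (K1 ^ j) ^ (1 / p.toReal) = (K1 ^ (1 / p.toReal)) ^ j := by
    rw [← Real.rpow_natCast, ← Real.rpow_mul (by positivity), mul_comm,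
      Real.rpow_mul (by positivity), Real.rpow_natCast]
  rw [e] at this
  calc _ ≤ _ := this
    _ = _ := by rw [mul_pow]; ring

/-- Solid extension from the positive cone to the whole space. -/
lemma norm_pow_le_of_pos {T : Lp ℝ p μ →L[ℝ] Lp ℝ p μ} (hT : Pos T) (n : ℕ) {B : ℝ}
    (h : ∀ f : Lp ℝ p μ, 0 ≤ f → ‖(T ^ n) f‖ ≤ B * ‖f‖) (f : Lp ℝ p μ) :
    ‖(T ^ n) f‖ ≤ B * ‖f‖ := by
  have h1 := h |f| (abs_nonneg _)
  rw [norm_abs_eq_norm] at h1
  refine le_trans ?_ h1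
  apply norm_le_norm_of_abs_le_abs
  have hTn := hT.pow n
  rw [abs_of_nonneg (hTn _ (abs_nonneg f)), abs_le']
  constructor
  · exact hTn.mono (le_abs_self f)
  · rw [← map_neg]
    exact hTn.mono (neg_le_abs f)

/-- Doubly exponential dyadic scales turn powers into powers of the logarithm. -/
lemma exists_scale (B : ℝ) (hB : 1 ≤ B) (n : ℕ) (hn : 1 ≤ n) :
    ∃ j : ℕ, n < 2 ^ (2 ^ j) ∧
      B ^ j ≤ B * (2 : ℝ) ^ Real.logb 2 B * (1 + Real.log n) ^ Real.logb 2 B := by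
  have hB0 : 0 < B := by linarith
  have hlogB : 0 ≤ Real.logb 2 B := Real.logb_nonneg (by norm_num) hB
  have hlogn : 0 ≤ Real.log n := Real.log_nonneg (by exact_mod_cast hn)
  rcases Nat.lt_or_ge n 2 with h2 | h2
  · refine ⟨0, by simpa using h2, ?_⟩
    rw [pow_zero]
    have h3 : (1 : ℝ) ≤ (2 : ℝ) ^ Real.logb 2 B := Real.one_le_rpow (by norm_num) hlogB
    have h4 : (1 : ℝ) ≤ (1 + Real.log n) ^ Real.logb 2 B :=
      Real.one_le_rpow (by linarith) hlogB
    exact one_le_mul_of_one_le_of_one_le (one_le_mul_of_one_le_of_one_le hB h3) h4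
  · set u := Nat.log 2 n with hu
    have hu1 : 1 ≤ u := Nat.log_pos (by norm_num) h2
    set v := Nat.log 2 u with hv
    refine ⟨v + 1, ?_, ?_⟩
    · have h3 : n < 2 ^ (u + 1) := Nat.lt_pow_succ_log_self (by norm_num) n
      have h4 : u < 2 ^ (v + 1) := Nat.lt_pow_succ_log_self (by norm_num) u
      exact h3.trans_le (Nat.pow_le_pow_right (by norm_num) h4)
    · have h5 : 2 ^ v ≤ u := Nat.pow_log_le_self 2 (by omega)
      have h6 : 2 ^ u ≤ n := Nat.pow_log_le_self 2 (by omega)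
      have h7 : (u : ℝ) * Real.log 2 ≤ Real.log n := by
        rw [← Real.log_pow]
        apply Real.log_le_log (by positivity)
        exact_mod_cast h6
      have hl2 : (1 / 2 : ℝ) ≤ Real.log 2 := by
        have := Real.log_two_gt_d9
        linarith
      have h8 : (2 : ℝ) ^ v ≤ 2 * (1 + Real.log n) := by
        have h9 : ((2 ^ v : ℕ) : ℝ) ≤ u := by exact_mod_cast h5
        push_cast at h9
        have hu0 : (0 : ℝ) ≤ u := Nat.cast_nonneg _
        nlinarith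
      have hBv : B ^ v = ((2 : ℝ) ^ v) ^ Real.logb 2 B := by
        rw [← Real.rpow_natCast, ← Real.rpow_natCast, ← Real.rpow_mul (by norm_num), mul_comm,
          Real.rpow_mul (by norm_num), Real.rpow_logb (by norm_num) (by norm_num) hB0]
      rw [pow_succ', hBv, mul_assoc]
      apply mul_le_mul_of_nonneg_left _ hB0.le
      rw [← Real.mul_rpow (by norm_num) (by linarith)]
      exact Real.rpow_le_rpow (by positivity) h8 hlogB

/-- Uniform polylogarithmic growth for positive operators on real `L^p`. -/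
theorem real_growth (hpt : p ≠ ⊤) (hp1 : 1 < p) (M : ℝ) (hM0 : 0 ≤ M) :
    ∃ C κ : ℝ, 0 ≤ C ∧ 0 ≤ κ ∧ ∀ (S : Type*) [MeasurableSpace S] (μ : Measure S)
      (T : Lp ℝ p μ →L[ℝ] Lp ℝ p μ), Pos T → KR T M → ∀ n : ℕ, 1 ≤ n → ∀ f : Lp ℝ p μ,
      ‖(T ^ n) f‖ ≤ C * (1 + Real.log n) ^ κ * ‖f‖ := by
  have hp1' : 1 < p.toReal := by
    rw [← ENNReal.toReal_one]
    exact (ENNReal.toReal_lt_toReal (by norm_num) hpt).mpr hp1
  have hr : 0 < p.toReal := by linarith
  have hpq := Real.HolderConjugate.conjExponent hp1'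
  set q := Real.conjExponent p.toReal with hq
  have hcW := cW_pos
  set K := cW * M with hK
  have hK0 : 0 ≤ K := by positivity
  set K1 := max 1 (2 * K ^ p.toReal) with hK1
  set K2 := max 1 (2 * K) with hK2
  set B := K2 * K1 ^ (1 / p.toReal) with hB
  have hB1 : 1 ≤ B := one_le_mul_of_one_le_of_one_le (le_max_left _ _)
    (Real.one_le_rpow (le_max_left _ _) (by positivity))
  have hKn : 0 ≤ (2 * K) ^ p.toReal := by positivity
  refine ⟨((1 + 2 * K) * (1 + (2 * K) ^ p.toReal) ^ (1 / p.toReal))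
    * (B * (2 : ℝ) ^ Real.logb 2 B), Real.logb 2 B, ?_,
    Real.logb_nonneg (by norm_num) hB1, ?_⟩
  · have : 0 ≤ B := by linarith
    positivity
  · intro S _ μ T hT hKR n hn f
    apply norm_pow_le_of_pos hT
    intro f hf
    obtain ⟨j, hj, hBj⟩ := exists_scale B hB1 n hn
    have h := pos_growth hpt hpq hT hK0 (window_of_KR hT hKR) (le_max_left 1 _)
      (le_max_right 1 (2 * K ^ p.toReal)) (le_max_left 1 _) (le_max_right 1 (2 * K)) j n hj f hf
    calc _ ≤ _ := h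
      _ ≤ ((1 + 2 * K) * (1 + (2 * K) ^ p.toReal) ^ (1 / p.toReal))
        * (B * (2 : ℝ) ^ Real.logb 2 B * (1 + Real.log n) ^ Real.logb 2 B) * ‖f‖ := by
          gcongr
      _ = _ := by ring

end Helper72.Kreiss
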