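import Pool.Agent.Helper72.KreissKey

/-!
The two square root recursions and the polylogarithmic bound for positive operators on real `L^p`.
-/

open MeasureTheory Finset
open scoped ENNReal NNReal

namespace Helper72.Kreiss

variable {S : Type*} [MeasurableSpace S] {μ : Measure S} {p : ℝ≥0∞} [Fact (1 ≤ p)]

lemma key_range (hpt : p ≠ ⊤) {q : ℝ} (hpq : p.toReal.HolderConjugate q)
    {T : Lp ℝ p μ →L[ℝ] Lp ℝ p μ} (hT : Pos T) (N a : ℕ) {K : ℝ} (hK : 0 ≤ K)
    (hV : ∀ f : Lp ℝ p μ, 0 ≤ f → ‖∑ l ∈ range (2 * N + 1), (T ^ (a + l)) f‖ ≤ K * ‖f‖)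
    (F : ℕ → Lp ℝ p μ) (hF : ∀ k, 0 ≤ F k) :
    ∑ i ∈ range (N + 1), ‖∑ k ∈ range (N + 1), (T ^ (a + i + k)) (F k)‖ ^ p.toReal
      ≤ K ^ p.toReal * ∑ k ∈ range (N + 1), ‖F k‖ ^ p.toReal := by
  have := key hpt hpq hT N a hK hV (fun k => F k) (fun k => hF k)
  simp only [Finset.sum_range]
  exact this

/-- The window estimate. -/
def Window (T : Lp ℝ p μ →L[ℝ] Lp ℝ p μ) (K : ℝ) : Prop :=
  ∀ n : ℕ, 1 ≤ n → ∀ f : Lp ℝ p μ, 0 ≤ f →
    ‖∑ l ∈ range (2 * Nat.sqrt n + 1), (T ^ (n - Nat.sqrt n + l)) f‖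
      ≤ K * (Nat.sqrt n + 1) * ‖f‖

lemma reindex {T : Lp ℝ p μ →L[ℝ] Lp ℝ p μ} (n N i : ℕ) (hN : N ≤ n) (f : Lp ℝ p μ) :
    ∑ k ∈ range (N + 1), (T ^ (n - N + i + k)) ((T ^ (N - k)) f)
      = ((N : ℝ) + 1) • (T ^ (n + i)) f := by
  have : ∀ k ∈ range (N + 1), (T ^ (n - N + i + k)) ((T ^ (N - k)) f) = (T ^ (n + i)) f := by
    intro k hk
    have hk' : k ≤ N := by simpa [Nat.lt_succ_iff] using hk
    rw [← mul_apply_eq_comp, ← pow_add]
    congr 2
    omega
  rw [Finset.sum_congr rfl this, Finset.sum_const, card_range, ← Nat.cast_smul_eq_nsmul ℝ]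
  push_cast
  rfl

lemma window_sum1 (hpt : p ≠ ⊤) {q : ℝ} (hpq : p.toReal.HolderConjugate q)
    {T : Lp ℝ p μ →L[ℝ] Lp ℝ p μ} (hT : Pos T) {K : ℝ} (hK : 0 ≤ K) (hW : Window T K)
    (n : ℕ) (hn : 1 ≤ n) (f : Lp ℝ p μ) (hf : 0 ≤ f) :
    ∑ i ∈ range (Nat.sqrt n + 1), ‖(T ^ (n + i)) f‖ ^ p.toReal
      ≤ K ^ p.toReal * ∑ k ∈ range (Nat.sqrt n + 1), ‖(T ^ k) f‖ ^ p.toReal := by
  set N := Nat.sqrt n with hN
  have hNn : N ≤ n := Nat.sqrt_le_self n
  have h := key_range hpt hpq hT N (n - N) (K := K * (N + 1)) (by positivity) (hW n hn)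
    (fun k => (T ^ (N - k)) f) (fun k => hT.pow _ _ hf)
  have e1 : ∀ i ∈ range (N + 1), ‖∑ k ∈ range (N + 1), (T ^ (n - N + i + k))
      ((T ^ (N - k)) f)‖ ^ p.toReal = ((N : ℝ) + 1) ^ p.toReal * ‖(T ^ (n + i)) f‖ ^ p.toReal := by
    intro i _
    rw [reindex n N i hNn f, norm_smul, Real.norm_of_nonneg (by positivity),
      Real.mul_rpow (by positivity) (norm_nonneg _)]
  rw [Finset.sum_congr rfl e1, ← Finset.mul_sum, Real.mul_rpow hK (by positivity)] at h
  have e2 : ∑ k ∈ range (N + 1), ‖(T ^ (N - k)) f‖ ^ p.toReal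
      = ∑ k ∈ range (N + 1), ‖(T ^ k) f‖ ^ p.toReal := by
    have := Finset.sum_range_reflect (fun k => ‖(T ^ k) f‖ ^ p.toReal) (N + 1)
    simpa using this
  rw [e2] at h
  have hpos : 0 < ((N : ℝ) + 1) ^ p.toReal := Real.rpow_pos_of_pos (by positivity) _
  have h' : ((N : ℝ) + 1) ^ p.toReal * ∑ i ∈ range (N + 1), ‖(T ^ (n + i)) f‖ ^ p.toReal
      ≤ ((N : ℝ) + 1) ^ p.toReal *
        (K ^ p.toReal * ∑ k ∈ range (N + 1), ‖(T ^ k) f‖ ^ p.toReal) := by
    calc _ ≤ _ := h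
      _ = _ := by ring
  exact le_of_mul_le_mul_left h' hpos

/-- First growth predicate. -/
def P1 (T : Lp ℝ p μ →L[ℝ] Lp ℝ p μ) (n : ℕ) (G : ℝ) : Prop :=
  ∀ m ≤ n, ∀ f : Lp ℝ p μ, 0 ≤ f →
    ∑ k ∈ range (m + 1), ‖(T ^ k) f‖ ^ p.toReal ≤ G * (m + 1) * ‖f‖ ^ p.toReal

/-- Second growth predicate. -/
def P2 (T : Lp ℝ p μ →L[ℝ] Lp ℝ p μ) (q : ℝ) (n : ℕ) (D : ℝ) : Prop :=
  ∀ m ≤ n, ∀ F : ℕ → Lp ℝ p μ, (∀ k, 0 ≤ F k) →
    ‖∑ k ∈ range (m + 1), (T ^ k) (F k)‖
      ≤ D * (((m : ℝ) + 1) ^ (1 / q) * (∑ k ∈ range (m + 1), ‖F k‖ ^ p.toReal) ^ (1 / p.toReal))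

lemma step1 (hpt : p ≠ ⊤) {q : ℝ} (hpq : p.toReal.HolderConjugate q)
    {T : Lp ℝ p μ →L[ℝ] Lp ℝ p μ} (hT : Pos T) {K : ℝ} (hK : 0 ≤ K) (hW : Window T K)
    (n : ℕ) {G K1 : ℝ} (hG : 1 ≤ G) (hK1 : 1 ≤ K1) (hK2 : 2 * K ^ p.toReal ≤ K1)
    (h : P1 T (Nat.sqrt n) G) : P1 T n (K1 * G) := by
  have hr : 0 < p.toReal := hpq.pos
  intro m
  induction m using Nat.strong_induction_on with
  | _ m ih =>
    intro hm f hf
    have hfn : 0 ≤ ‖f‖ ^ p.toReal := by positivity
    rcases Nat.eq_zero_or_pos m with h0 | hmpos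
    · subst h0
      simp only [sum_range_one, pow_zero, one_apply_eq_self,
        Nat.cast_zero, zero_add, mul_one]
      have : 1 ≤ K1 * G := one_le_mul_of_one_le_of_one_le hK1 hG
      nlinarith
    · set s := Nat.sqrt m with hs
      have hs1 : 1 ≤ s := Nat.sqrt_pos.mpr hmpos
      have hsm : s ≤ m := Nat.sqrt_le_self m
      have hss : s * s ≤ m := Nat.sqrt_le m
      obtain ⟨t, ht⟩ : ∃ t, m = t + s := ⟨m - s, by omega⟩
      have e : m + 1 = (t + 1) + s := by omega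
      rw [e, Finset.sum_range_add]
      have h1 := ih t (by omega) (by omega) f hf
      -- the window starting at `t + 1`
      have h2 := window_sum1 hpt hpq hT hK hW (t + 1) (by omega) f hf
      set N := Nat.sqrt (t + 1) with hN
      have hNs : N ≤ s := by
        rw [hN, hs]; exact Nat.sqrt_le_sqrt (by omega)
      have hsN : s ≤ N + 1 := by
        -- (s-1)^2 ≤ t + 1
        have : s - 1 ≤ N := by
          rw [hN, Nat.le_sqrt]
          obtain ⟨r, hr⟩ : ∃ r, s = r + 1 := ⟨s - 1, by omega⟩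
          rw [hr] at hss ht ⊢
          simp only [Nat.add_sub_cancel]
          nlinarith
        omega
      have h3 : ∑ x ∈ range s, ‖(T ^ (t + 1 + x)) f‖ ^ p.toReal
          ≤ ∑ i ∈ range (N + 1), ‖(T ^ (t + 1 + i)) f‖ ^ p.toReal := by
        apply Finset.sum_le_sum_of_subset_of_nonneg
        · intro x hx
          simp only [mem_range] at hx ⊢
          omega
        · intro _ _ _; positivity
      have hNn : N ≤ Nat.sqrt n := by
        rw [hN]; exact Nat.sqrt_le_sqrt (by omega)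
      have h4 := h N hNn f hf
      have hKp : 0 ≤ K ^ p.toReal := Real.rpow_nonneg hK _
      have h5 : ∑ x ∈ range s, ‖(T ^ (t + 1 + x)) f‖ ^ p.toReal
          ≤ K1 * G * s * ‖f‖ ^ p.toReal := by
        calc _ ≤ _ := h3
          _ ≤ _ := h2
          _ ≤ K ^ p.toReal * (G * (N + 1) * ‖f‖ ^ p.toReal) := mul_le_mul_of_nonneg_left h4 hKp
          _ ≤ K ^ p.toReal * (G * (2 * s) * ‖f‖ ^ p.toReal) := by
            have : (N : ℝ) + 1 ≤ 2 * s := by
              have h6 : (N : ℝ) ≤ s := by exact_mod_cast hNs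
              have h7 : (1 : ℝ) ≤ s := by exact_mod_cast hs1
              linarith
            gcongr
          _ = (2 * K ^ p.toReal) * (G * s * ‖f‖ ^ p.toReal) := by ring
          _ ≤ K1 * (G * s * ‖f‖ ^ p.toReal) := by
            apply mul_le_mul_of_nonneg_right hK2
            positivity
          _ = _ := by ring
      have hmr : (m : ℝ) = t + s := by exact_mod_cast ht
      rw [hmr]
      calc _ ≤ K1 * G * (t + 1) * ‖f‖ ^ p.toReal + K1 * G * s * ‖f‖ ^ p.toReal := add_le_add h1 h5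
        _ = _ := by ring

lemma window_sum2 (hpt : p ≠ ⊤) {q : ℝ} (hpq : p.toReal.HolderConjugate q)
    {T : Lp ℝ p μ →L[ℝ] Lp ℝ p μ} (hT : Pos T) {K : ℝ} (hK : 0 ≤ K) (hW : Window T K)
    (n : ℕ) (hn : 1 ≤ n) {D : ℝ} (hD : 0 ≤ D) (h : P2 T q (Nat.sqrt n) D)
    (F : ℕ → Lp ℝ p μ) (hF : ∀ k, 0 ≤ F k) :
    ‖∑ i ∈ range (Nat.sqrt n + 1), (T ^ (n + i)) (F i)‖
      ≤ K * D * (((Nat.sqrt n : ℝ) + 1) ^ (1 / q)
        * (∑ k ∈ range (Nat.sqrt n + 1), ‖F k‖ ^ p.toReal) ^ (1 / p.toReal)) := by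
  have hr : 0 < p.toReal := hpq.pos
  set N := Nat.sqrt n with hN
  have hNn : N ≤ n := Nat.sqrt_le_self n
  have hk := key_range hpt hpq hT N (n - N) (K := K * (N + 1)) (by positivity) (hW n hn) F hF
  set G : ℕ → Lp ℝ p μ := fun k => ∑ i ∈ range (N + 1), (T ^ (n - N + k + i)) (F i) with hG
  have hG0 : ∀ k, 0 ≤ G k := fun k => Finset.sum_nonneg fun i _ => hT.pow _ _ (hF i)
  -- reversed order
  have h1 := h N le_rfl (fun k => G (N - k)) (fun k => hG0 _)
  have e1 : ∑ k ∈ range (N + 1), (T ^ k) (G (N - k))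
      = ((N : ℝ) + 1) • ∑ i ∈ range (N + 1), (T ^ (n + i)) (F i) := by
    rw [hG]
    simp only [map_sum]
    rw [Finset.sum_comm, Finset.smul_sum]
    refine Finset.sum_congr rfl fun i _ => ?_
    have : ∀ k ∈ range (N + 1), (T ^ k) ((T ^ (n - N + (N - k) + i)) (F i))
        = (T ^ (n + i)) (F i) := by
      intro k hk
      have hk' : k ≤ N := by simpa [Nat.lt_succ_iff] using hk
      rw [← mul_apply_eq_comp, ← pow_add]
      congr 2
      omega
    rw [Finset.sum_congr rfl this, Finset.sum_const, card_range, ← Nat.cast_smul_eq_nsmul ℝ]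
    push_cast
    rfl
  have e2 : ∑ k ∈ range (N + 1), ‖G (N - k)‖ ^ p.toReal
      = ∑ k ∈ range (N + 1), ‖G k‖ ^ p.toReal := by
    have := Finset.sum_range_reflect (fun k => ‖G k‖ ^ p.toReal) (N + 1)
    simpa using this
  rw [e1, e2, norm_smul, Real.norm_of_nonneg (by positivity)] at h1
  have hN1 : 0 < (N : ℝ) + 1 := by positivity
  have h2 : (∑ k ∈ range (N + 1), ‖G k‖ ^ p.toReal) ^ (1 / p.toReal)
      ≤ K * (N + 1) * (∑ k ∈ range (N + 1), ‖F k‖ ^ p.toReal) ^ (1 / p.toReal) := by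
    calc _ ≤ ((K * (N + 1)) ^ p.toReal * ∑ k ∈ range (N + 1), ‖F k‖ ^ p.toReal)
          ^ (1 / p.toReal) := by
          apply Real.rpow_le_rpow (Finset.sum_nonneg fun _ _ =>
            Real.rpow_nonneg (norm_nonneg _) _) hk (by positivity)
      _ = _ := by
          rw [Real.mul_rpow (Real.rpow_nonneg (by positivity) _) (Finset.sum_nonneg fun _ _ =>
            Real.rpow_nonneg (norm_nonneg _) _), ← Real.rpow_mul (by positivity),
            mul_one_div_cancel hr.ne', Real.rpow_one]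
  have h3 : ((N : ℝ) + 1) * ‖∑ i ∈ range (N + 1), (T ^ (n + i)) (F i)‖
      ≤ ((N : ℝ) + 1) * (K * D * (((N : ℝ) + 1) ^ (1 / q)
        * (∑ k ∈ range (N + 1), ‖F k‖ ^ p.toReal) ^ (1 / p.toReal))) := by
    calc _ ≤ _ := h1
      _ ≤ D * (((N : ℝ) + 1) ^ (1 / q) * (K * (N + 1) *
          (∑ k ∈ range (N + 1), ‖F k‖ ^ p.toReal) ^ (1 / p.toReal))) := by
          apply mul_le_mul_of_nonneg_left _ hD
          apply mul_le_mul_of_nonneg_left h2
          positivity
      _ = _ := by ring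
  exact le_of_mul_le_mul_left h3 hN1

/-- Hölder for two terms. -/
lemma holder_two {r q : ℝ} (hpq : r.HolderConjugate q) {a b x y : ℝ} (ha : 0 ≤ a) (hb : 0 ≤ b)
    (hx : 0 ≤ x) (hy : 0 ≤ y) :
    a ^ (1 / q) * x ^ (1 / r) + b ^ (1 / q) * y ^ (1 / r)
      ≤ (a + b) ^ (1 / q) * (x + y) ^ (1 / r) := by
  have hr : 0 < r := hpq.pos
  have hq : 0 < q := hpq.symm.pos
  have h := Real.inner_le_Lp_mul_Lq_of_nonneg (univ : Finset (Fin 2)) hpq.symm
    (f := ![a ^ (1 / q), b ^ (1 / q)]) (g := ![x ^ (1 / r), y ^ (1 / r)])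
    (by intro i _; fin_cases i <;> simp <;> positivity)
    (by intro i _; fin_cases i <;> simp <;> positivity)
  simp only [Fin.sum_univ_two, Matrix.cons_val_zero, Matrix.cons_val_one] at h
  rw [← Real.rpow_mul ha, ← Real.rpow_mul hb, ← Real.rpow_mul hx, ← Real.rpow_mul hy,
    one_div_mul_cancel hr.ne', one_div_mul_cancel hq.ne', Real.rpow_one, Real.rpow_one,
    Real.rpow_one, Real.rpow_one] at h
  exact h

lemma step2 (hpt : p ≠ ⊤) {q : ℝ} (hpq : p.toReal.HolderConjugate q)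
    {T : Lp ℝ p μ →L[ℝ] Lp ℝ p μ} (hT : Pos T) {K : ℝ} (hK : 0 ≤ K) (hW : Window T K)
    (n : ℕ) {D K2 : ℝ} (hD : 1 ≤ D) (hK2 : 1 ≤ K2) (hK3 : 2 * K ≤ K2)
    (h : P2 T q (Nat.sqrt n) D) : P2 T q n (K2 * D) := by
  have hr : 0 < p.toReal := hpq.pos
  have hq : 0 < q := hpq.symm.pos
  have hq1 : 1 < q := hpq.symm.lt
  intro m
  induction m using Nat.strong_induction_on with
  | _ m ih =>
    intro hm F hF
    rcases Nat.eq_zero_or_pos m with h0 | hmpos
    · subst h0
      simp only [sum_range_one, pow_zero, one_apply_eq_self,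
        Nat.cast_zero, zero_add, Real.one_rpow, one_mul]
      rw [← Real.rpow_mul (norm_nonneg _), mul_one_div_cancel hr.ne', Real.rpow_one]
      have h1 : 1 ≤ K2 * D := one_le_mul_of_one_le_of_one_le hK2 hD
      have : 0 ≤ ‖F 0‖ := norm_nonneg _
      nlinarith
    · set s := Nat.sqrt m with hs
      have hs1 : 1 ≤ s := Nat.sqrt_pos.mpr hmpos
      have hsm : s ≤ m := Nat.sqrt_le_self m
      have hss : s * s ≤ m := Nat.sqrt_le m
      obtain ⟨t, ht⟩ : ∃ t, m = t + s := ⟨m - s, by omega⟩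
      have e : m + 1 = (t + 1) + s := by omega
      have hmr : (m : ℝ) + 1 = (t + 1) + s := by exact_mod_cast e
      rw [hmr, e, Finset.sum_range_add (fun k => (T ^ k) (F k)) (t + 1) s,
        Finset.sum_range_add (fun k => ‖F k‖ ^ p.toReal) (t + 1) s]
      have h1 := ih t (by omega) (by omega) F hF
      set N := Nat.sqrt (t + 1) with hN
      have hNs : N ≤ s := by
        rw [hN, hs]; exact Nat.sqrt_le_sqrt (by omega)
      have hsN : s ≤ N + 1 := by
        have : s - 1 ≤ N := by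
          rw [hN, Nat.le_sqrt]
          obtain ⟨r, hr⟩ : ∃ r, s = r + 1 := ⟨s - 1, by omega⟩
          rw [hr] at hss ht ⊢
          simp only [Nat.add_sub_cancel]
          nlinarith
        omega
      have hNn : N ≤ Nat.sqrt n := by
        rw [hN]; exact Nat.sqrt_le_sqrt (by omega)
      -- truncated family
      set F' : ℕ → Lp ℝ p μ := fun i => if i < s then F (t + 1 + i) else 0 with hF'
      have hF'0 : ∀ k, 0 ≤ F' k := by
        intro k
        simp only [hF']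
        split_ifs
        · exact hF _
        · exact le_rfl
      have hPN : P2 T q N D := fun m' hm' => h m' (hm'.trans hNn)
      have h2 := window_sum2 hpt hpq hT hK hW (t + 1) (by omega) (by linarith) hPN F' hF'0
      rw [← hN] at h2
      have hsub : range s ⊆ range (N + 1) := by
        intro x hx
        simp only [mem_range] at hx ⊢
        omega
      have e1 : ∑ i ∈ range (N + 1), (T ^ (t + 1 + i)) (F' i)
          = ∑ x ∈ range s, (T ^ (t + 1 + x)) (F (t + 1 + x)) := by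
        rw [← Finset.sum_subset hsub]
        · refine Finset.sum_congr rfl fun x hx => ?_
          simp only [hF', if_pos (mem_range.mp hx)]
        · intro x _ hx
          have : ¬ x < s := by simpa using hx
          simp only [hF', if_neg this, map_zero]
      have e2 : ∑ k ∈ range (N + 1), ‖F' k‖ ^ p.toReal
          = ∑ x ∈ range s, ‖F (t + 1 + x)‖ ^ p.toReal := by
        rw [← Finset.sum_subset hsub]
        · refine Finset.sum_congr rfl fun x hx => ?_
          simp only [hF', if_pos (mem_range.mp hx)]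
        · intro x _ hx
          have : ¬ x < s := by simpa using hx
          simp only [hF', if_neg this, norm_zero, Real.zero_rpow hr.ne']
      rw [e1, e2] at h2
      set X := ∑ k ∈ range (t + 1), ‖F k‖ ^ p.toReal with hX
      set Y := ∑ x ∈ range s, ‖F (t + 1 + x)‖ ^ p.toReal with hY
      have hX0 : 0 ≤ X := Finset.sum_nonneg fun _ _ => Real.rpow_nonneg (norm_nonneg _) _
      have hY0 : 0 ≤ Y := Finset.sum_nonneg fun _ _ => Real.rpow_nonneg (norm_nonneg _) _
      have h3 : ‖∑ x ∈ range s, (T ^ (t + 1 + x)) (F (t + 1 + x))‖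
          ≤ K2 * D * ((s : ℝ) ^ (1 / q) * Y ^ (1 / p.toReal)) := by
        have hsr : (1 : ℝ) ≤ s := by exact_mod_cast hs1
        have h4 : ((N : ℝ) + 1) ^ (1 / q) ≤ 2 * (s : ℝ) ^ (1 / q) := by
          have h5 : (N : ℝ) + 1 ≤ 2 * s := by
            have h6 : (N : ℝ) ≤ s := by exact_mod_cast hNs
            linarith
          calc ((N : ℝ) + 1) ^ (1 / q) ≤ (2 * (s : ℝ)) ^ (1 / q) :=
                Real.rpow_le_rpow (by positivity) h5 (by positivity)
            _ = 2 ^ (1 / q) * (s : ℝ) ^ (1 / q) := Real.mul_rpow (by norm_num) (by positivity)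
            _ ≤ 2 * (s : ℝ) ^ (1 / q) := by
                apply mul_le_mul_of_nonneg_right _ (by positivity)
                calc (2 : ℝ) ^ (1 / q) ≤ 2 ^ (1 : ℝ) :=
                      Real.rpow_le_rpow_of_exponent_le (by norm_num)
                        (by rw [div_le_one hq]; exact hq1.le)
                  _ = 2 := Real.rpow_one _
        calc _ ≤ _ := h2
          _ ≤ K * D * ((2 * (s : ℝ) ^ (1 / q)) * Y ^ (1 / p.toReal)) := by
              have : 0 ≤ Y ^ (1 / p.toReal) := Real.rpow_nonneg hY0 _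
              gcongr
          _ = (2 * K) * (D * ((s : ℝ) ^ (1 / q) * Y ^ (1 / p.toReal))) := by ring
          _ ≤ K2 * (D * ((s : ℝ) ^ (1 / q) * Y ^ (1 / p.toReal))) := by
              have : 0 ≤ Y ^ (1 / p.toReal) := Real.rpow_nonneg hY0 _
              apply mul_le_mul_of_nonneg_right hK3
              positivity
          _ = _ := by ring
      calc _ ≤ ‖∑ k ∈ range (t + 1), (T ^ k) (F k)‖
            + ‖∑ x ∈ range s, (T ^ (t + 1 + x)) (F (t + 1 + x))‖ := norm_add_le _ _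
        _ ≤ K2 * D * (((t : ℝ) + 1) ^ (1 / q) * X ^ (1 / p.toReal))
            + K2 * D * ((s : ℝ) ^ (1 / q) * Y ^ (1 / p.toReal)) := add_le_add h1 h3
        _ = K2 * D * (((t : ℝ) + 1) ^ (1 / q) * X ^ (1 / p.toReal)
            + (s : ℝ) ^ (1 / q) * Y ^ (1 / p.toReal)) := by ring
        _ ≤ _ := by
            apply mul_le_mul_of_nonneg_left _ (by positivity)
            exact holder_two hpq (by positivity) (by positivity) hX0 hY0

end Helper72.Kreiss
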