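import Mathlib

/-!
Negative binomial weights `b k l`: the coefficient of `T ^ l` in the `k`-th power of the
resolvent of `T` at the point `2`.
-/

namespace Helper72.Kreiss

/-- The coefficient of `z ^ l` in the power series of `(2 - z)⁻¹ ^ k`. -/
noncomputable def b : ℕ → ℕ → ℝ
  | 0, 0 => 1
  | 0, (_ + 1) => 0
  | (k + 1), l => (Nat.choose (l + k) l : ℝ) / 2 ^ (l + k + 1)

lemma b_nonneg (k l : ℕ) : 0 ≤ b k l := by
  rcases k with _ | k
  · rcases l with _ | l
    · simp [b]
    · simp [b]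
  · simp only [b]
    positivity

lemma b_succ_zero (k : ℕ) : b (k + 1) 0 = 1 / 2 * b k 0 := by
  rcases k with _ | k
  · simp [b]
  · simp only [b, Nat.choose_zero_right, Nat.cast_one, Nat.zero_add]
    rw [pow_succ (2 : ℝ) (k + 1)]
    field_simp

lemma b_succ_succ (k l : ℕ) : b (k + 1) (l + 1) = 1 / 2 * b k (l + 1) + 1 / 2 * b (k + 1) l := by
  rcases k with _ | k
  · simp only [b, Nat.add_zero, Nat.choose_self, Nat.cast_one]
    rw [pow_succ (2 : ℝ) (l + 1)]
    field_simp
    norm_num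
  · simp only [b]
    have h : Nat.choose (l + 1 + (k + 1)) (l + 1)
        = Nat.choose (l + (k + 1)) l + Nat.choose (l + 1 + k) (l + 1) := by
      have := Nat.choose_succ_succ (l + (k + 1)) l
      have e : l + 1 + (k + 1) = (l + (k + 1)) + 1 := by ring
      rw [e, this]
      congr 2
      ring
    rw [h]
    push_cast
    have e1 : l + 1 + (k + 1) + 1 = (l + 1 + k + 1) + 1 := by ring
    have e2 : l + (k + 1) + 1 = l + 1 + k + 1 := by ring
    rw [e1, e2, pow_succ (2 : ℝ) (l + 1 + k + 1)]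
    field_simp
    ring

/-- Central value: `C(2a,a)² 4a ≥ 16^a`. -/
lemma central_sq (a : ℕ) (ha : 1 ≤ a) :
    (16 : ℝ) ^ a ≤ (Nat.choose (2 * a) a : ℝ) ^ 2 * (4 * a) := by
  induction a, ha using Nat.le_induction with
  | base => norm_num [Nat.choose]
  | succ n hn ih =>
    have h := Nat.succ_mul_centralBinom_succ n
    rw [Nat.centralBinom, Nat.centralBinom] at h
    have h' : ((n : ℝ) + 1) * (Nat.choose (2 * (n + 1)) (n + 1) : ℝ)
        = 2 * (2 * n + 1) * (Nat.choose (2 * n) n : ℝ) := by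
      exact_mod_cast h
    have hn0 : (0 : ℝ) < n := by exact_mod_cast hn
    have hx : (Nat.choose (2 * (n + 1)) (n + 1) : ℝ)
        = 2 * (2 * n + 1) * (Nat.choose (2 * n) n : ℝ) / (n + 1) := by
      field_simp
      linarith
    rw [hx]
    push_cast
    have : (2 * (2 * (n : ℝ) + 1) * (Nat.choose (2 * n) n : ℝ) / (n + 1)) ^ 2 * (4 * (n + 1))
        = (Nat.choose (2 * n) n : ℝ) ^ 2 * (4 * n) * (4 * (2 * n + 1) ^ 2 / (n * (n + 1))) := by
      field_simp
      ring
    rw [this, pow_succ]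
    have h16 : (16 : ℝ) ≤ 4 * (2 * n + 1) ^ 2 / (n * (n + 1)) := by
      rw [le_div_iff₀ (by positivity)]
      nlinarith
    exact mul_le_mul ih h16 (by norm_num) (by positivity)

lemma b_central (a : ℕ) (ha : 1 ≤ a) : 1 / (4 * Real.sqrt a) ≤ b (a + 1) a := by
  have h := central_sq a ha
  simp only [b]
  have e : a + a = 2 * a := by ring
  rw [e]
  have ha0 : (0 : ℝ) < a := by exact_mod_cast ha
  have hs : 0 < Real.sqrt a := Real.sqrt_pos.mpr ha0
  have hs2 : Real.sqrt a ^ 2 = a := Real.sq_sqrt ha0.le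
  rw [div_le_div_iff₀ (by positivity) (by positivity), pow_succ]
  have h4 : (2 : ℝ) ^ (2 * a) = 4 ^ a := by rw [pow_mul]; norm_num
  rw [h4]
  have key : (4 : ℝ) ^ a ≤ (Nat.choose (2 * a) a : ℝ) * (2 * Real.sqrt a) := by
    apply le_of_sq_le_sq _ (by positivity)
    calc ((4 : ℝ) ^ a) ^ 2 = 16 ^ a := by rw [← pow_mul, mul_comm, pow_mul]; norm_num
      _ ≤ (Nat.choose (2 * a) a : ℝ) ^ 2 * (4 * a) := h
      _ = ((Nat.choose (2 * a) a : ℝ) * (2 * Real.sqrt a)) ^ 2 := by
        rw [mul_pow, mul_pow, hs2]; ring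
  nlinarith

lemma b_ratio (a l : ℕ) :
    b (a + 1) (l + 1) * (2 * (l + 1)) = b (a + 1) l * (l + a + 1) := by
  simp only [b]
  have h : (l + a).succ * (l + a).choose l = (l + a).succ.choose l.succ * l.succ :=
    Nat.add_one_mul_choose_eq _ _
  have h' : ((l : ℝ) + a + 1) * ((l + a).choose l : ℝ)
      = ((l + 1 + a).choose (l + 1) : ℝ) * (l + 1) := by
    have e : l + 1 + a = (l + a).succ := by rw [Nat.succ_eq_add_one]; ring
    rw [e]
    exact_mod_cast h
  have e : l + 1 + a + 1 = (l + a + 1) + 1 := by ring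
  rw [e, pow_succ (2 : ℝ) (l + a + 1)]
  field_simp
  linarith

lemma b_window (a : ℕ) (ha : 1 ≤ a) (j : ℕ) :
    b (a + 1) a * Real.exp (-(j * (j + 1)) / (4 * a)) ≤ b (a + 1) (a + j) := by
  have ha0 : (0 : ℝ) < a := by exact_mod_cast ha
  induction j with
  | zero => simp
  | succ j ih =>
    have hr := b_ratio a (a + j)
    push_cast at hr
    have hb : b (a + 1) (a + j + 1)
        = b (a + 1) (a + j) * ((2 * a + j + 1) / (2 * (a + j + 1))) := by
      field_simp
      linarith
    have e : a + (j + 1) = a + j + 1 := by ring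
    rw [e, hb]
    have hexp : Real.exp (-(((j + 1 : ℕ) : ℝ) * (((j + 1 : ℕ) : ℝ) + 1)) / (4 * a))
        = Real.exp (-(j * (j + 1)) / (4 * a)) * Real.exp (-((j + 1) / (2 * a))) := by
      rw [← Real.exp_add]
      congr 1
      push_cast
      field_simp
      ring
    rw [hexp]
    have hratio : Real.exp (-(((j : ℝ) + 1) / (2 * a))) ≤ (2 * a + j + 1) / (2 * (a + j + 1)) := by
      rw [Real.exp_neg, inv_le_comm₀ (Real.exp_pos _) (by positivity), inv_div]
      calc (2 * ((a : ℝ) + j + 1)) / (2 * a + j + 1) ≤ ((j + 1) / (2 * a)) + 1 := by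
            rw [div_add_one (by positivity), div_le_div_iff₀ (by positivity) (by positivity)]
            nlinarith
        _ ≤ _ := Real.add_one_le_exp _
    calc b (a + 1) a * (Real.exp (-(j * (j + 1)) / (4 * a)) * Real.exp (-((j + 1) / (2 * a))))
        = (b (a + 1) a * Real.exp (-(j * (j + 1)) / (4 * a)))
          * Real.exp (-(((j : ℝ) + 1) / (2 * a))) := by ring
      _ ≤ b (a + 1) (a + j) * ((2 * a + j + 1) / (2 * (a + j + 1))) :=
        mul_le_mul ih hratio (Real.exp_pos _).le (b_nonneg _ _)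

/-- The numerical constant of the window estimate. -/
noncomputable def cW : ℝ := 4 * Real.exp 6

lemma cW_pos : 0 < cW := by unfold cW; positivity

lemma one_le_window (n : ℕ) (hn : 1 ≤ n) (j : ℕ) (hj : j ≤ 2 * Nat.sqrt n) :
    1 ≤ cW * (Nat.sqrt n + 1) * b (n - Nat.sqrt n + 1) (n - Nat.sqrt n + j) := by
  set N := Nat.sqrt n with hN
  have hNle : N * N ≤ n := Nat.sqrt_le n
  have hNlt : n < (N + 1) * (N + 1) := by
    have := Nat.lt_succ_sqrt n
    simpa [Nat.succ_eq_add_one] using this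
  have hN1 : 1 ≤ N := by
    rw [hN]
    exact Nat.sqrt_pos.mpr hn
  obtain ⟨a, ha⟩ : ∃ a, n = a + N := ⟨n - N, by
    have : N ≤ n := Nat.sqrt_le_self n
    omega⟩
  have ha' : n - N = a := by omega
  rw [ha']
  rcases Nat.eq_zero_or_pos a with h0 | hapos
  · -- `a = 0`, so `n = 1`
    subst h0
    have hn1 : N * N ≤ N := by omega
    have hNN : N = 1 := by nlinarith
    rw [hNN] at hj ⊢
    have h8 : (1 : ℝ) / 8 ≤ b (0 + 1) (0 + j) := by
      simp only [b, Nat.zero_add, Nat.add_zero, Nat.choose_self, Nat.cast_one]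
      interval_cases j <;> norm_num
    have hc : (4 : ℝ) ≤ cW := by
      unfold cW
      have : (1 : ℝ) ≤ Real.exp 6 := Real.one_le_exp (by norm_num)
      linarith
    push_cast
    have := mul_le_mul hc h8 (by norm_num) (by linarith)
    linarith
  · have ha0 : (0 : ℝ) < a := by exact_mod_cast hapos
    have hwin := b_window a hapos j
    have hcen := b_central a hapos
    -- `n ≤ 4 a`
    have hn4 : N * N ≤ 4 * a := by
      by_contra hcon
      push Not at hcon
      -- N*N ≤ a + N, 4 a < N * N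
      nlinarith
    have hjr : (j : ℝ) ≤ 2 * N := by exact_mod_cast hj
    have hN1r : (1 : ℝ) ≤ N := by exact_mod_cast hN1
    have hj0 : (0 : ℝ) ≤ j := Nat.cast_nonneg _
    have hexp : Real.exp (-6) ≤ Real.exp (-(j * (j + 1)) / (4 * a)) := by
      apply Real.exp_le_exp.mpr
      rw [neg_div, neg_le_neg_iff, div_le_iff₀ (by positivity)]
      have hn4r : (N : ℝ) * N ≤ 4 * a := by exact_mod_cast hn4
      nlinarith
    have hsq : Real.sqrt a ≤ N + 1 := by
      rw [Real.sqrt_le_left (by positivity)]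
      have : a ≤ (N + 1) * (N + 1) := by omega
      have : (a : ℝ) ≤ (N + 1) * (N + 1) := by exact_mod_cast this
      nlinarith
    have hs : 0 < Real.sqrt a := Real.sqrt_pos.mpr ha0
    have h1 : 1 / (4 * ((N : ℝ) + 1)) ≤ b (a + 1) a := by
      refine le_trans ?_ hcen
      apply one_div_le_one_div_of_le (by positivity)
      linarith
    have h2 : 1 / (4 * ((N : ℝ) + 1)) * Real.exp (-6) ≤ b (a + 1) (a + j) :=
      le_trans (mul_le_mul h1 hexp (Real.exp_pos _).le (b_nonneg _ _)) hwin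
    have h3 : cW * ((N : ℝ) + 1) * (1 / (4 * ((N : ℝ) + 1)) * Real.exp (-6)) = 1 := by
      unfold cW
      rw [Real.exp_neg]
      have := Real.exp_pos 6
      field_simp
    calc (1 : ℝ) = cW * ((N : ℝ) + 1) * (1 / (4 * ((N : ℝ) + 1)) * Real.exp (-6)) := h3.symm
      _ ≤ cW * ((N : ℝ) + 1) * b (a + 1) (a + j) := by
        apply mul_le_mul_of_nonneg_left h2
        have := cW_pos
        positivity

end Helper72.Kreiss
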